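import Pool.Agent.RS.StmtsF
import Pool.Agent.Helper12_UO.Defs

set_option autoImplicit false

/-!
# Squad RS, block G: the Jacobian, the generator, the hitting set

Every row is a `Prop`, to be proved as a theorem `xxx : XxxStmt` (or `(h : YyyStmt) → XxxStmt`); the
complete proofs are in the docstrings.
-/

namespace Pool.Agent.RS

open MvPolynomial

/-- `F = C(T_1, ..., T_m)` with an arbitrary polynomial `C`, where every `T_i` is a product of (any
number of, not necessarily distinct) polynomials of degree `≤ d` in `x_0, ..., x_(n-1)`, and every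
algebraically independent subfamily of the `T_i` has at most `k` members (transcendence degree `≤ k`,
for example `m ≤ k`). -/
def IsComp (E : Type) [Field E] (k d n : ℕ) (F : MvPolynomial ℕ E) : Prop :=
  ∃ (m : ℕ) (T : Fin m → MvPolynomial ℕ E) (C : MvPolynomial (Fin m) E),
    (∀ i, ∃ (N : ℕ) (f : Fin N → MvPolynomial ℕ E),
      (∀ v, (f v).totalDegree ≤ d ∧ (f v).vars ⊆ Finset.range n) ∧ T i = ∏ v, f v) ∧
    (∀ s : Finset (Fin m), AlgebraicIndependent E (fun i : s => T i) → s.card ≤ k) ∧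
    F = aeval T C

/-- ROW FAI.  JACOBIAN CRITERION AND FAITHFULNESS (helper82).

PROOF.  `s` = a maximal subfamily `T_(s 0), ..., T_(s (ρ-1))` which is algebraically independent.
(Hard direction of the Jacobian criterion, characteristic `0`.)  Some minor is not `0`.  (Easy
direction.)  If the minor of the images is not `0` then the images are algebraically independent.
(Faithfulness.)  `F = aeval T C` is algebraic over `E[T_(s ·)]`: `∑ c_i(T) F ^ i = 0` with `c_0 ≠ 0`
(minimal degree, `F ≠ 0`); if `Phi F = 0` then `c_0(Phi T) = 0`, impossible.  STRONG. -/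
def FaiStmt : Prop := ∀ (E : Type) [Field E] [CharZero E] (m k : ℕ) (T : Fin m → MvPolynomial ℕ E),
  (∀ s : Finset (Fin m), AlgebraicIndependent E (fun i : s => T i) → s.card ≤ k) →
    ∃ (ρ : ℕ) (s : Fin ρ → Fin m) (j : Fin ρ → ℕ), ρ ≤ k ∧
      (Matrix.of fun i l => pderiv (j i) (T (s l))).det ≠ 0 ∧
      ∀ (Ph : MvPolynomial ℕ E →ₐ[E] MvPolynomial ℕ E) (C : MvPolynomial (Fin m) E),
        (Matrix.of fun i l => pderiv (j i) (Ph (T (s l)))).det ≠ 0 → aeval T C ≠ 0 →
          Ph (aeval T C) ≠ 0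

/-- The index type of the expansion of the Jacobian determinant. -/
abbrev JIdx {ρ : ℕ} (N : Fin ρ → ℕ) : Type := Equiv.Perm (Fin ρ) × (∀ l : Fin ρ, Fin (N l))

/-- The numerators of the expansion. -/
noncomputable def jNum {E : Type} [Field E] {ρ : ℕ} (N : Fin ρ → ℕ)
    (f : ∀ l : Fin ρ, Fin (N l) → MvPolynomial ℕ E) (j : Fin ρ → ℕ) (t : JIdx N) :
    MvPolynomial ℕ E :=
  ((Equiv.Perm.sign t.1 : ℤ) : MvPolynomial ℕ E) * ∏ l, pderiv (j (t.1 l)) (f l (t.2 l))

/-- The denominators of the expansion. -/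
noncomputable def jDen {E : Type} [Field E] {ρ : ℕ} (N : Fin ρ → ℕ)
    (f : ∀ l : Fin ρ, Fin (N l) → MvPolynomial ℕ E) (t : JIdx N) : MvPolynomial ℕ E :=
  ∏ l, f l (t.2 l)

/-- ROW LDE.  LOGARITHMIC DERIVATIVE: `∂(∏ f_v) / ∏ f_v = ∑ ∂ f_v / f_v` in the field of fractions.

PROOF.  `Derivation.leibniz_prod` (or `pderiv` of a `Finset.prod`, induction), divide.  30 lines. -/
def LdeStmt : Prop := ∀ (E : Type) [Field E] (N j : ℕ) (f : Fin N → MvPolynomial ℕ E),
  (∀ v, f v ≠ 0) → io E (pderiv j (∏ v, f v)) =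
    io E (∏ v, f v) * ∑ v, io E (pderiv j (f v)) / io E (f v)

/-- ROW JDT.  THE JACOBIAN DETERMINANT AS A SUM OF FRACTIONS.

PROOF (from LDE).  `Matrix.det_apply'` (with `M (σ l) l`): `det = ∑ σ, sign σ ∏ l, ∂_(j (σ l)) T_l`,
`T_l = ∏ v, f l v`; by LDE `∂_j T_l = T_l ∑ v, ∂_j f_(l,v) / f_(l,v)`; `Finset.prod_univ_sum` (product
over `l` of sums over `Fin (N l)` is a sum over `∀ l, Fin (N l)`, `Fintype.piFinset_univ`), sum over the
product type `Fintype.sum_prod_type`.  Degrees: `totalDegree (pderiv j g) ≤ totalDegree g`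
(`totalDegree_pderiv_le` of Defs), products, the sign is `±1`.  60 lines. -/
def JdtStmt : Prop := ∀ (E : Type) [Field E] (ρ d : ℕ) (N : Fin ρ → ℕ)
  (f : ∀ l : Fin ρ, Fin (N l) → MvPolynomial ℕ E) (j : Fin ρ → ℕ), (∀ l v, f l v ≠ 0) →
    (∀ l v, (f l v).totalDegree ≤ d) →
    io E (Matrix.of fun i l => pderiv (j i) (∏ v, f l v)).det =
      io E (∏ l, ∏ v, f l v) * total (jNum N f j) (jDen N f) ∧
    ∀ t, jDen N f t ≠ 0 ∧ (jNum N f j t).totalDegree ≤ ρ * d ∧ (jDen N f t).totalDegree ≤ ρ * d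

/-- ROW SPE.  SPECIALISATION OF A COMPOSITION: for `F ≠ 0` of the class `IsComp E k d n` there are `J`,
`|J| ≤ r`, and `H` such that `h(ζ) ≠ 0` on `H` implies `Phi J ζ F ≠ 0`.

PROOF (from RSS, FAI, JDT, PHB, NMT).  `r = r₀ + k`, `Δ = max Δ₀ d`, with `r₀`, `Δ₀` from RSS for
`D = k d`.  Let `F = aeval T C`, `T i = ∏ v, f i v`.  If some factor `f i v` is `0` then `T i = 0`;
FAI: the family of the `T (s l)` has a nonzero minor, so `T (s l) ≠ 0` and the factors of the `T (s l)`
are not `0` (only these are needed).  `Δet = det (∂_(j i) T (s l)) ≠ 0`.  JDT: with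
`a = jNum`, `b = jDen` (for `N l = N (s l)` etc.): `io Δet = io (∏ T (s l)) total a b`, so
`total a b ≠ 0`, `numer a b ≠ 0` (NMT), and in `A`: `Δet ∏ b_t = (∏ l, T (s l)) numer a b`.
RSS (degrees `≤ ρ d ≤ k d`) gives `J₀`, `H₀`.  `J = J₀ ∪ {j i}`, `H = H₀ ∪ {f (s l) v}`.  Let `h(ζ) ≠ 0`
on `H`, `Φ = Phi J ζ`.  `Phi J₀ ζ (Φ (numer a b)) = Phi J₀ ζ (numer a b) ≠ 0` (PHB (3)), so
`Φ (numer a b) ≠ 0`; `Φ (f (s l) v) ≠ 0` (PHB (1)), so `Φ (T (s l)) ≠ 0`; hence `Φ Δet ≠ 0`.
`Φ` commutes with `∂_(j i)` (PHB (4)) and with `det` (`RingHom.map_det`), so the minor of the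
`Φ (T (s l))` is not `0`, and FAI gives `Φ F ≠ 0`.  100 lines.  STRONG. -/
def SpeStmt : Prop := ∀ (E : Type) [Field E] [CharZero E] (k d : ℕ), ∃ r Δ : ℕ,
  ∀ (n : ℕ) (F : MvPolynomial ℕ E), IsComp E k d n F → F ≠ 0 →
    ∃ (J : Finset ℕ) (H : Finset (MvPolynomial ℕ E)), J.card ≤ r ∧
      (∀ h ∈ H, h ≠ 0 ∧ h.totalDegree ≤ Δ) ∧ ∀ ζ : ℕ → E, (∀ h ∈ H, eval ζ h ≠ 0) →
        Phi J ζ F ≠ 0

/-- ROW GNO.  THE GENERATOR, one polynomial in the first `n` variables: a nonzero `h` of degree `≤ m` in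
`x_0, ..., x_(n-1)` does not vanish identically on the points
`x_i = ∑ l < m, z_l ∏ l' < n, l' ≠ i, (w_l - l')`.

PROOF.  Induction on `m`, for all `h`.  `h` constant: clear.  Otherwise (characteristic `0`) some
`∂_i h ≠ 0`, `i < n`, of degree `≤ m - 1` (`Helper12_Clust.totalDegree_pderiv_lt` shows
`totalDegree (pderiv i h) + 1 ≤ totalDegree h`; or prove it).  By induction there are `w, z ∈ E^(m-1)`
with `(∂_i h)(p) ≠ 0`, `p = point n w z`.  Let `v_i(W) = ∏ l' < n, l' ≠ i, (W - l')`.  The polynomial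
`g(W) = ∑ i < n, (∂_i h)(p) v_i(W)` is not zero: its value at `W = i` is
`(∂_i h)(p) ∏ l' ≠ i, (i - l') ≠ 0` (the other `v_i'` vanish there).  So take `W = i`: for the point
`p + Z v(i)` (only the coordinate `i` of `v(i)` is not `0`) the polynomial `Z ↦ h(p + Z v(i))` has
derivative `g(i) ≠ 0` at `Z = 0`, so it is not identically zero and some `Z ∈ E` (infinite field) gives
a nonzero value.  `point n (w, i) (z, Z)` with `Fin.snoc` (`Fin.sum_univ_castSucc`).  100 lines.
STRONG. -/
def GnoStmt : Prop := ∀ (E : Type) [Field E] [CharZero E] (n m : ℕ) (h : MvPolynomial ℕ E),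
  h ≠ 0 → h.totalDegree ≤ m → h.vars ⊆ Finset.range n →
    ∃ w z : Fin m → E, eval (Pool.Agent.UO.point n w z) h ≠ 0

/-- ROW GNT.  THE GENERATOR for a finite set of polynomials in all variables.

PROOF (from GNO).  First, one `h ≠ 0`: write it as a polynomial in `x_0, ..., x_(n-1)` whose
coefficients are polynomials in the other variables; some coefficient is not `0`, choose `u` where it
does not vanish (`MvPolynomial.funext`, infinite field): `h_u = aeval (i ↦ if i < n then X i else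
C (u i)) h ≠ 0`, of degree `≤ deg h`, in the first `n` variables; GNO.  (Alternative to choosing
coefficients: `h(p) ≠ 0` for some `p : ℕ → E`; take `u = p`; then `h_u(p) = h(p) ≠ 0`.)  Several `h`:
for each `h` the function `(w, z, u) ↦ h(...)` is a polynomial `P_h` in the variables
`w_l, z_l, u_i` (`MvPolynomial (Fin m ⊕ Fin m ⊕ ℕ) E`, `aeval` of `h` at the polynomials
`point n (X ∘ inl) (X ∘ inr ∘ inl) i` (`point_map`-like lemma: evaluation commutes with `point`) and
`X (inr (inr i))`), not zero by the first part; the product over `H` is not zero, so it does not vanish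
at some point.  100 lines.  STRONG. -/
def GntStmt : Prop := ∀ (E : Type) [Field E] [CharZero E] (n m : ℕ) (H : Finset (MvPolynomial ℕ E)),
  (∀ h ∈ H, h ≠ 0 ∧ h.totalDegree ≤ m) → ∃ (w z : Fin m → E) (u : ℕ → E), ∀ h ∈ H,
    eval (fun i => if i < n then Pool.Agent.UO.point n w z i else u i) h ≠ 0

/-- ROW FRE.  FREEING COORDINATES: changing the coordinates in `J` of a point of the generator with `m`
terms gives a point of the generator with `t ≥ m + |J|` terms.

PROOF.  Induction on `J` or directly: enumerate `J = {i_0, ..., i_(c-1)}` (`J.equivFin` or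
`Finset.orderEmbOfFin`); `w' = (w, i_0, ..., i_(c-1), 0, ...)`,
`z' = (z, Z_0, ..., Z_(c-1), 0, ...)`.  `∏ l < n, l ≠ i, (i_a - l)` is `0` for `i ≠ i_a` (`i_a < n`) and
`≠ 0` for `i = i_a` (characteristic `0`); so `Z_a = (y (i_a) - point n w z (i_a)) / ∏ ...`.  Easier: one
coordinate at a time (`Fin.snoc`), then pad with zeros.  80 lines. -/
def FreStmt : Prop := ∀ (E : Type) [Field E] [CharZero E] (n m t : ℕ) (J : Finset ℕ)
  (w z : Fin m → E) (y : ℕ → E), (∀ j ∈ J, j < n) → m + J.card ≤ t → ∃ w' z' : Fin t → E,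
    ∀ i, Pool.Agent.UO.point n w' z' i =
      if i ∈ J then y i else Pool.Agent.UO.point n w z i

/-- ROW HIT.  THE HITTING SET for one nonzero polynomial of the class.

PROOF (from SPE, GNT, FRE).  `r`, `Δ` from SPE; `t0 = Δ + r`.  Let `F ≠ 0` be in the class, in the first
`n` variables (`F.vars ⊆ range n`, from `IsComp`: `aeval T C` with `T i` in `supported E {i < n}`, a
subalgebra).  SPE: `J`, `H`.  GNT with `m = Δ`: `w, z, u`; let `ζ i = if i < n then point n w z i else
u i`.  `G = Phi J ζ F ≠ 0`, so there is `y : ℕ → E` with `eval y G ≠ 0` (`MvPolynomial.funext`).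
`eval y G = F(x)` with `x_i = y_i` for `i ∈ J`, `x_i = ζ_i` otherwise.  FRE for `J ∩ range n`: the point
`point n w' z'` agrees with `x` at all `i < n`, so `F` has the same value (`MvPolynomial.eval` depends
only on the variables: `MvPolynomial.eval₂Hom_congr'` / `hom_congr_vars`).  80 lines. -/
def HitStmt : Prop := ∀ (E : Type) [Field E] [CharZero E] (k d : ℕ), ∃ t0 : ℕ,
  ∀ (n t : ℕ), t0 ≤ t → ∀ F : MvPolynomial ℕ E, IsComp E k d n F → F ≠ 0 →
    ∃ w z : Fin t → E, eval (Pool.Agent.UO.point n w z) F ≠ 0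

/-- ROW PRD.  PRODUCTS: the same for products of nonzero polynomials of the class.

PROOF (from HIT).  For each factor `F` the polynomial `P_F(w, z) = F(point n w z)` in `2 t` variables
(`aeval` at `point n (X ∘ inl) (X ∘ inr)` in `MvPolynomial (Fin t ⊕ Fin t) E`) is not zero; so is the
product (a domain), and it does not vanish at some point (`E` infinite).  50 lines. -/
def PrdStmt : Prop := ∀ (E : Type) [Field E] [CharZero E] (k d : ℕ), ∃ t0 : ℕ,
  ∀ (n t : ℕ), t0 ≤ t → ∀ S : List (MvPolynomial ℕ E), (∀ F ∈ S, IsComp E k d n F) → S.prod ≠ 0 →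
    ∃ w z : Fin t → E, eval (Pool.Agent.UO.point n w z) S.prod ≠ 0

end Pool.Agent.RS
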