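import Mathlib

set_option autoImplicit false

/-!
# Polynomial-size hitting sets for sums of `k` products of polynomials of degree `≤ d`: definitions

Squad RS (`MP_b2b50d_lc`).  The complete paper proof is in the team store (`PAPER_RS.md`).
-/

namespace Pool.Agent.RS

open MvPolynomial

/-! ## One variable -/

/-- `Λ : L(X) → L` is the sum of the residues at the roots of `Q`: it vanishes on the fractions whose
denominator is prime to `Q`, and it maps the proper fraction `f / Q ^ s` to its `X ^ (-1)` coefficient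
at infinity.  (If it exists it is unique; this is never needed.) -/
def IsRes {L : Type} [Field L] (Q : Polynomial L) (Λ : RatFunc L →ₗ[L] L) : Prop :=
  (∀ a b : Polynomial L, b ≠ 0 → IsCoprime b Q →
    Λ (algebraMap (Polynomial L) (RatFunc L) a / algebraMap (Polynomial L) (RatFunc L) b) = 0) ∧
  ∀ (f : Polynomial L) (s : ℕ), f.degree < ((s * Q.natDegree : ℕ) : WithBot ℕ) →
    Λ (algebraMap (Polynomial L) (RatFunc L) f / algebraMap (Polynomial L) (RatFunc L) Q ^ s) =
      f.coeff (s * Q.natDegree - 1) / Q.leadingCoeff ^ s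

open Classical in
/-- The functional of `IsRes` (if there is one). -/
noncomputable def res {L : Type} [Field L] (Q : Polynomial L) : RatFunc L →ₗ[L] L :=
  if h : ∃ Λ : RatFunc L →ₗ[L] L, IsRes Q Λ then h.choose else 0

/-! ## Many variables -/

section Many

variable {E : Type} [Field E]

/-- `f` with `x_j` replaced by the new variable `X`. -/
noncomputable def toX (j : ℕ) : MvPolynomial ℕ E →ₐ[E] Polynomial (MvPolynomial ℕ E) :=
  aeval fun i => if i = j then Polynomial.X else Polynomial.C (X i)

/-- Substituting `x_j` for `X` gives `f` back. -/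
lemma eval_toX (j : ℕ) (f : MvPolynomial ℕ E) : (toX j f).eval (X j) = f := by
  have h : ((Polynomial.evalRingHom (X j : MvPolynomial ℕ E)).comp
      (toX j : MvPolynomial ℕ E →ₐ[E] Polynomial (MvPolynomial ℕ E)).toRingHom) =
      RingHom.id (MvPolynomial ℕ E) := by
    apply MvPolynomial.ringHom_ext
    · intro a
      simp [toX, MvPolynomial.algebraMap_eq]
    · intro i
      by_cases hi : i = j <;> simp [toX, hi]
  exact congrArg (fun g : MvPolynomial ℕ E →+* MvPolynomial ℕ E => g f) h

lemma toX_injective (j : ℕ) : Function.Injective (toX (E := E) j) := by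
  intro f g h
  rw [← eval_toX j f, ← eval_toX j g, h]

/-- `f` as a polynomial in `X = x_j` over a field `L`, the other variables being mapped to `L` by
`φ` (the value of `φ` at `x_j` plays no role). -/
noncomputable def atX {L : Type} [Field L] (j : ℕ) (φ : MvPolynomial ℕ E →+* L) :
    MvPolynomial ℕ E →+* Polynomial L :=
  (Polynomial.mapRingHom φ).comp (toX j : MvPolynomial ℕ E →ₐ[E] Polynomial (MvPolynomial ℕ E)).toRingHom

/-- The fraction field of the ring of polynomials. -/
abbrev FF (E : Type) [Field E] : Type := FractionRing (MvPolynomial ℕ E)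

/-- The inclusion of the ring of polynomials into its fraction field. -/
noncomputable abbrev io (E : Type) [Field E] : MvPolynomial ℕ E →+* FF E :=
  algebraMap (MvPolynomial ℕ E) (FF E)

lemma io_injective : Function.Injective (io E) := IsFractionRing.injective _ _

lemma atX_injective (j : ℕ) : Function.Injective (atX j (io E)) := by
  intro f g h
  apply toX_injective j
  exact Polynomial.map_injective _ io_injective h

/-- The embedding of the field of fractions in the field of rational functions in `X = x_j`. -/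
noncomputable def up (j : ℕ) : FF E →+* RatFunc (FF E) :=
  IsFractionRing.lift (A := MvPolynomial ℕ E)
    (g := (algebraMap (Polynomial (FF E)) (RatFunc (FF E))).comp (atX j (io E)))
    ((IsFractionRing.injective (Polynomial (FF E)) (RatFunc (FF E))).comp (atX_injective j))

lemma up_io (j : ℕ) (f : MvPolynomial ℕ E) : up j (io E f) =
    algebraMap (Polynomial (FF E)) (RatFunc (FF E)) (atX j (io E) f) := by
  unfold up
  rw [IsFractionRing.lift_algebraMap]
  rfl

/-- `lam j q c w` is the sum of the residues of `X ^ c w` at the roots of `q`, with `X = x_j`. -/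
noncomputable def lam (j : ℕ) (q : MvPolynomial ℕ E) (c : ℕ) : FF E →+ FF E :=
  ((res (atX j (io E) q)).toAddMonoidHom.comp
    (AddMonoidHom.mulLeft (algebraMap (Polynomial (FF E)) (RatFunc (FF E)) (Polynomial.X ^ c)))).comp
      (up j).toAddMonoidHom

lemma lam_apply (j : ℕ) (q : MvPolynomial ℕ E) (c : ℕ) (w : FF E) :
    lam j q c w = res (atX j (io E) q)
      (algebraMap (Polynomial (FF E)) (RatFunc (FF E)) (Polynomial.X ^ c) * up j w) := rfl

/-- The leading coefficient of `q` as a polynomial in `x_j`. -/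
noncomputable def lcx (j : ℕ) (q : MvPolynomial ℕ E) : MvPolynomial ℕ E := (toX j q).leadingCoeff

/-- The polynomials without the variables in `J`. -/
noncomputable def PJ (E : Type) [Field E] (J : Finset ℕ) : Subring (MvPolynomial ℕ E) :=
  (supported E {i | i ∉ J}).toSubring

/-- The specialisation `x_j ↦ x_j` (`j ∈ J`), `x_l ↦ ζ_l` (`l ∉ J`). -/
noncomputable def Phi (J : Finset ℕ) (ζ : ℕ → E) : MvPolynomial ℕ E →ₐ[E] MvPolynomial ℕ E :=
  aeval fun i => if i ∈ J then X i else C (ζ i)

/-- The numerator `∑ t, a_t ∏ t' ≠ t, b_t'` of `∑ t, a_t / b_t`. -/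
noncomputable def numer {R : Type} [CommRing R] {ι : Type} [Fintype ι] [DecidableEq ι]
    (a b : ι → R) : R :=
  ∑ t, a t * ∏ t' ∈ Finset.univ.erase t, b t'

/-- The value `∑ t, a_t / b_t` in the field of fractions. -/
noncomputable def total {ι : Type} [Fintype ι] (a b : ι → MvPolynomial ℕ E) : FF E :=
  ∑ t, io E (a t) / io E (b t)

/-- `w` has no pole at the prime `q`. -/
def NoPole (q : MvPolynomial ℕ E) (w : FF E) : Prop :=
  ∃ f g : MvPolynomial ℕ E, ¬ q ∣ g ∧ w = io E f / io E g

end Many

/-! ## Chains -/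

section Chains

variable {B : Type} [CommRing B]

/-- `u ∈ P` is prime to `q` over the field of fractions of `P'`. -/
def Good (P P' : Subring B) (q u : B) : Prop :=
  u ∈ P ∧ ∃ α ∈ P, ∃ β ∈ P, α * q + β * u ∈ P' ∧ α * q + β * u ≠ 0

/-- `w ∈ N_r = M_0 + ... + M_(r-1)`, where `M_l` consists of all `a / ((q_0 ... q_(l-1)) ^ s u)` with
`a ∈ B` and `Good u`. -/
def InN {K : Type} [Field K] [Algebra B K] (P : ℕ → Subring B) (q : ℕ → B) (r : ℕ) (w : K) : Prop :=
  ∃ (s : ℕ → ℕ) (a u : ℕ → B), (∀ l < r, Good (P l) (P (l + 1)) (q l) (u l)) ∧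
    w = ∑ l ∈ Finset.range r, algebraMap B K (a l) /
      algebraMap B K ((∏ i ∈ Finset.range l, q i) ^ s l * u l)

/-- The data of a chain of length `r`: `q_l ∈ P_l` is a polynomial in `x_l` of positive degree over
`P_(l+1)` with leading coefficient `lc_l`, `e_0 = 1`, `e_(l+1) = lc_l ρ_l`,
`ρ_l = α_l q_l + β_l e_l ∈ P_(l+1)` is not zero. -/
def AChain (P : ℕ → Subring B) (x : ℕ → B) (r : ℕ) (q lc e ρ α β : ℕ → B) : Prop :=
  e 0 = 1 ∧ ∀ l < r, q l ∈ P l ∧ α l ∈ P l ∧ β l ∈ P l ∧ ρ l ∈ P (l + 1) ∧ ρ l ≠ 0 ∧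
    ρ l = α l * q l + β l * e l ∧ e (l + 1) = lc l * ρ l ∧ lc l ≠ 0 ∧
    ∃ p : Polynomial B, (∀ n, p.coeff n ∈ P (l + 1)) ∧ 0 < p.natDegree ∧ p.leadingCoeff = lc l ∧
      p.eval (x l) = q l

end Chains

section FChain

variable {E : Type} [Field E]

/-- The polynomials without the variables `x_(j_0), ..., x_(j_(l-1))`. -/
noncomputable def Pj (E : Type) [Field E] (j : ℕ → ℕ) (l : ℕ) : Subring (MvPolynomial ℕ E) :=
  PJ E ((Finset.range l).image j)

/-- A chain of length `r` of polynomials whose degrees are bounded by `Q`. -/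
def FChain (Q : ℕ → ℕ) (j : ℕ → ℕ) (r : ℕ) (q lc e ρ α β : ℕ → MvPolynomial ℕ E) : Prop :=
  (∀ l < r, ∀ m < l, j l ≠ j m) ∧ e 0 = 1 ∧ ∀ l < r, q l ∈ Pj E j l ∧ α l ∈ Pj E j l ∧
    β l ∈ Pj E j l ∧ ρ l ∈ Pj E j (l + 1) ∧ ρ l ≠ 0 ∧ ρ l = α l * q l + β l * e l ∧
    e (l + 1) = lc l * ρ l ∧ j l ∈ (q l).vars ∧ lc l = lcx (j l) (q l) ∧
    (q l).totalDegree ≤ Q l ∧ (e l).totalDegree ≤ Q l ∧ (ρ l).totalDegree ≤ Q l ∧
    (α l).totalDegree ≤ Q l ∧ (β l).totalDegree ≤ Q l

end FChain

/-! ## Germs -/

section Germs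

/-- A nonprincipal ultrafilter on `ℕ`. -/
noncomputable abbrev uf : Ultrafilter ℕ := Filter.hyperfilter ℕ

/-- The field of germs of sequences in `E`. -/
abbrev KS (E : Type) : Type := Filter.Germ (uf : Filter ℕ) E

/-- The ring of germs of sequences of polynomials. -/
abbrev AS (E : Type) [Field E] : Type := Filter.Germ (uf : Filter ℕ) (MvPolynomial ℕ E)

variable (E : Type) [Field E]

noncomputable instance instAlgAS : Algebra (KS E) (AS E) :=
  Algebra.ofModule
    (fun r x y => by
      induction r using Filter.Germ.inductionOn with | _ r => ?_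
      induction x using Filter.Germ.inductionOn with | _ x => ?_
      induction y using Filter.Germ.inductionOn with | _ y => ?_
      exact congrArg _ (funext fun n => smul_mul_assoc (r n) (x n) (y n)))
    (fun r x y => by
      induction r using Filter.Germ.inductionOn with | _ r => ?_
      induction x using Filter.Germ.inductionOn with | _ x => ?_
      induction y using Filter.Germ.inductionOn with | _ y => ?_
      exact congrArg _ (funext fun n => mul_smul_comm (r n) (x n) (y n)))

/-- The germ of a sequence of polynomials. -/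
noncomputable def gm (F : ℕ → MvPolynomial ℕ E) : AS E := (F : AS E)

/-- The ring of germs of sequences of polynomials of bounded degree. -/
noncomputable def BG : Subalgebra (KS E) (AS E) where
  carrier := {f | ∃ (F : ℕ → MvPolynomial ℕ E) (D : ℕ), (∀ n, (F n).totalDegree ≤ D) ∧ f = gm E F}
  mul_mem' := by
    rintro a b ⟨F, D, hF, rfl⟩ ⟨G, D', hG, rfl⟩
    refine ⟨fun n => F n * G n, D + D', fun n => ?_, rfl⟩
    exact (totalDegree_mul _ _).trans (Nat.add_le_add (hF n) (hG n))
  add_mem' := by
    rintro a b ⟨F, D, hF, rfl⟩ ⟨G, D', hG, rfl⟩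
    refine ⟨fun n => F n + G n, max D D', fun n => ?_, rfl⟩
    exact (totalDegree_add _ _).trans (max_le_max (hF n) (hG n))
  algebraMap_mem' := by
    intro r
    induction r using Filter.Germ.inductionOn with | _ r => ?_
    refine ⟨fun n => r n • 1, 0, fun n => ?_, rfl⟩
    refine (totalDegree_smul_le _ _).trans ?_
    simp

/-- The germ of a bounded sequence, as an element of `BG`. -/
noncomputable def bg (F : ℕ → MvPolynomial ℕ E) (D : ℕ) (hF : ∀ n, (F n).totalDegree ≤ D) : BG E :=
  ⟨gm E F, F, D, hF, rfl⟩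

/-- The germs of sequences of homogeneous polynomials of degree `e`. -/
noncomputable def homo (e : ℕ) : Submodule (KS E) (BG E) where
  carrier := {f | ∃ F : ℕ → MvPolynomial ℕ E, (∀ n, (F n).IsHomogeneous e) ∧ (f : AS E) = gm E F}
  add_mem' := by
    rintro a b ⟨F, hF, hF'⟩ ⟨G, hG, hG'⟩
    refine ⟨fun n => F n + G n, fun n => (hF n).add (hG n), ?_⟩
    rw [Subalgebra.coe_add, hF', hG']
    rfl
  zero_mem' := ⟨fun _ => 0, fun _ => isHomogeneous_zero _ _ _, rfl⟩
  smul_mem' := by
    rintro c a ⟨F, hF, hF'⟩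
    induction c using Filter.Germ.inductionOn with | _ c => ?_
    refine ⟨fun n => c n • F n, fun n => ?_, ?_⟩
    · have h := (isHomogeneous_C ℕ (c n)).mul (hF n)
      rw [zero_add, C_mul'] at h
      exact h
    · rw [Subalgebra.coe_smul, hF']
      rfl

lemma totalDegree_pderiv_le (i : ℕ) (f : MvPolynomial ℕ E) :
    (pderiv i f).totalDegree ≤ f.totalDegree := by
  conv_lhs => rw [f.as_sum, map_sum]
  refine totalDegree_finsetSum_le fun s hs => ?_
  rw [pderiv_monomial]
  refine (totalDegree_monomial_le _ _).trans ?_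
  refine le_trans ?_ (le_totalDegree hs)
  have h : s - Finsupp.single i 1 ≤ s := tsub_le_self
  exact Finsupp.sum_le_sum_index h (fun _ _ => fun _ _ h => h) (fun _ _ => rfl)

/-- The derivative in the direction of the variables `x_(J n)`, as a map of germs. -/
noncomputable def dAS (J : ℕ → ℕ) (f : AS E) : AS E :=
  Filter.Germ.map₂ (fun (i : ℕ) (g : MvPolynomial ℕ E) => pderiv i g) (J : Filter.Germ (uf : Filter ℕ) ℕ) f

lemma dAS_gm (J : ℕ → ℕ) (F : ℕ → MvPolynomial ℕ E) :
    dAS E J (gm E F) = gm E (fun n => pderiv (J n) (F n)) := rfl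

lemma dAS_mem (J : ℕ → ℕ) {f : AS E} (hf : f ∈ BG E) : dAS E J f ∈ BG E := by
  obtain ⟨F, D, hF, rfl⟩ := hf
  refine ⟨fun n => pderiv (J n) (F n), D, fun n => ?_, rfl⟩
  exact (totalDegree_pderiv_le E _ _).trans (hF n)

/-- The derivation `∂ / ∂x_J` of the ring of bounded germs. -/
noncomputable def dBG (J : ℕ → ℕ) : Derivation (KS E) (BG E) (BG E) :=
  Derivation.mk'
    { toFun := fun f => ⟨dAS E J f, dAS_mem E J f.2⟩
      map_add' := by
        rintro ⟨a, F, D, hF, rfl⟩ ⟨b, G, D', hG, rfl⟩
        apply Subtype.ext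
        exact congrArg (gm E) (funext fun n => map_add (pderiv (J n)) (F n) (G n))
      map_smul' := by
        rintro c ⟨a, F, D, hF, rfl⟩
        induction c using Filter.Germ.inductionOn with | _ c => ?_
        apply Subtype.ext
        exact congrArg (gm E) (funext fun n => (pderiv (J n)).map_smul (c n) (F n)) }
    (by
      rintro ⟨a, F, D, hF, rfl⟩ ⟨b, G, D', hG, rfl⟩
      apply Subtype.ext
      exact congrArg (gm E) (funext fun n => (pderiv (J n)).leibniz (F n) (G n)))

/-- The bounded germs that do not involve the variables `x_(J 0), ..., x_(J (l-1))`. -/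
noncomputable def PG (J : ℕ → ℕ → ℕ) (l : ℕ) : Subring (BG E) where
  carrier := {f | ∀ i < l, dBG E (J i) f = 0}
  mul_mem' := by
    intro a b ha hb i hi
    rw [Derivation.leibniz, ha i hi, hb i hi, smul_zero, smul_zero, add_zero]
  one_mem' := fun i _ => Derivation.map_one_eq_zero _
  add_mem' := by
    intro a b ha hb i hi
    rw [map_add, ha i hi, hb i hi, add_zero]
  zero_mem' := fun i _ => map_zero _
  neg_mem' := by
    intro a ha i hi
    rw [map_neg, ha i hi, neg_zero]

end Germs

end Pool.Agent.RS
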