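import Pool.Agent.RS.StmtsT

set_option autoImplicit false

/-!
# Squad RS, block F: residues, stages, transfer

Every row is a `Prop`, to be proved as a theorem `xxx : XxxStmt` (or `(h : YyyStmt) → XxxStmt`); the
complete proofs are in the docstrings.
-/

namespace Pool.Agent.RS

open MvPolynomial

/-! ## One variable -/

/-- ROW FUN.  THE RESIDUE FUNCTIONAL exists.

PROOF (from PFF).  For `w ∈ L(X)` and `v ∈ L` let `Rel w v` mean: there are `a, b, f ∈ L[X]`, `s`, with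
`b ≠ 0`, `IsCoprime b Q`, `f.degree < s δ` (`δ = Q.natDegree`), `w = a / b + f / Q ^ s` and
`v = f.coeff (s δ - 1) / lc(Q) ^ s`.
(1) Total: `w = n / d`; PFF for `d`: `1 / d = c / u + c' / Q ^ M`, so `w = n c / u + n c' / Q ^ M`, and
`n c' = Q ^ M h + f` with `deg f < M δ` (`EuclideanDomain` division `%`, `/`), so
`w = (n c + h u) / u + f / Q ^ M`.
(2) Additive: `a / b + a' / b' = (a b' + a' b) / (b b')`, `f / Q ^ s + f' / Q ^ s' =
(f Q ^ s' + f' Q ^ s) / Q ^ (s + s')`, and for `deg f < s δ`: the coefficient of index `(s + s') δ - 1`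
of `f Q ^ s'` is `f.coeff (s δ - 1) lc(Q) ^ s'` (`Polynomial.coeff_mul_of_natDegree_le` with
`natDegree f ≤ s δ - 1`, `natDegree (Q ^ s') ≤ s' δ`; for `s = 0`, `f = 0`).
(3) `Rel 0 v → v = 0`: `f / Q ^ s = - a / b`, so `f b = - a Q ^ s`, `Q ^ s ∣ f` (coprime), so `f = 0` by
degrees.  Multiples: clear.
So `Λ w := choose` is well defined, additive and linear, (L1): `Rel (a / b) 0`, (L2): `Rel (f / Q ^ s) _`.
120 lines.  STRONG. -/
def FunStmt : Prop := ∀ (L : Type) [Field L] (Q : Polynomial L), 0 < Q.natDegree →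
  ∃ Λ : RatFunc L →ₗ[L] L, IsRes Q Λ

/-- ROW RES.  `res Q` is a residue functional.

PROOF (from FUN).  Unfold `res`, `dif_pos`.  5 lines. -/
def ResStmt : Prop := ∀ (L : Type) [Field L] (Q : Polynomial L), 0 < Q.natDegree → IsRes Q (res Q)

section Syl

variable {R : Type} [CommRing R]

/-- Coefficient of index `i < g` of the polynomial `A₁` with `A₁ b + A₂ G = resultant b G m g • P`. -/
noncomputable def sylA (m g : ℕ) (b G P : Polynomial R) (i : ℕ) : R :=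
  if h : i < g then ∑ k : Fin (m + g),
    (Polynomial.sylvester b G m g).adjugate (Fin.natAdd m ⟨i, h⟩) k * P.coeff k else 0

/-- Coefficient of index `i < m` of the polynomial `A₂` with `A₁ b + A₂ G = resultant b G m g • P`. -/
noncomputable def sylB (m g : ℕ) (b G P : Polynomial R) (i : ℕ) : R :=
  if h : i < m then ∑ k : Fin (m + g),
    (Polynomial.sylvester b G m g).adjugate (Fin.castAdd g ⟨i, h⟩) k * P.coeff k else 0

/-- The numerator of the residue of `P / (Q ^ B b)` (`δ` is the degree of `Q`). -/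
noncomputable def numT (m B δ : ℕ) (Q b P : Polynomial R) : R :=
  sylA m (B * δ) b (Q ^ B) P (B * δ - 1)

/-- The denominator of the residue of `P / (Q ^ B b)` (`δ` is the degree of `Q`). -/
noncomputable def denT (m B δ : ℕ) (Q b : Polynomial R) : R :=
  Polynomial.resultant b (Q ^ B) m (B * δ) * Q.coeff δ ^ B

end Syl

/-- ROW SYL.  THE SYLVESTER IDENTITY over a commutative ring.

PROOF.  `Polynomial.sylveserMap_comp_adjSylvester` (Mathlib, RingTheory/Polynomial/Resultant/Basic)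
applied to `⟨P, _⟩ : R[X]_(m+g)`: `sylvesterMap b G (adjSylvester b G P) = resultant • P`, where
`sylvesterMap (p, q) = b q + G p`.  By definition `adjSylvester` is
`(sylvester b G m g).adjugate.toLin` for the bases `degreeLT.basis`, so the coefficients of its two
components are the sums `sylB` (first component, `Fin.castAdd`) and `sylA` (second component,
`Fin.natAdd`).  If that is awkward, prove it directly from
`sylvester * adjugate = det • 1` (`Matrix.mul_adjugate`) by comparing coefficients.  80 lines. -/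
def SylStmt : Prop := ∀ (R : Type) [CommRing R] (m g : ℕ) (b G P : Polynomial R),
  b.natDegree ≤ m → G.natDegree ≤ g → P.degree < ((m + g : ℕ) : WithBot ℕ) →
    (∑ i ∈ Finset.range g, Polynomial.C (sylA m g b G P i) * Polynomial.X ^ i) * b +
      (∑ i ∈ Finset.range m, Polynomial.C (sylB m g b G P i) * Polynomial.X ^ i) * G =
      Polynomial.C (Polynomial.resultant b G m g) * P

/-- ROW SMP.  `sylA`, `sylB`, `numT`, `denT` commute with ring homomorphisms.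

PROOF.  `Polynomial.sylvester_map_map`, `RingHom.map_adjugate`, `Polynomial.resultant_map_map`,
`Polynomial.coeff_map`, `Polynomial.map_pow`.  30 lines. -/
def SmpStmt : Prop := ∀ (R S : Type) [CommRing R] [CommRing S] (φ : R →+* S) (m B δ : ℕ)
  (Q b P : Polynomial R), numT m B δ (Q.map φ) (b.map φ) (P.map φ) = φ (numT m B δ Q b P) ∧
    denT m B δ (Q.map φ) (b.map φ) = φ (denT m B δ Q b)

/-- ROW TRM.  THE RESIDUE FORMULA over a field.

PROOF (from SYL).  `δ = Q.natDegree`, `G = Q ^ B`, `g = B δ > 0`, `R = resultant b G m g ≠ 0`.  SYL for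
`P = 1` gives `A₁ b + A₂ G = C R` (`1` has degree `0 < m + g`), so `b` and `Q` are coprime (`G = Q ^ B`,
`B > 0`) and `b ≠ 0` (otherwise `Q` divides a unit).  SYL for `P`: `P / (G b) = (A₁ / G + A₂ / b) / R`,
`deg A₁ < g = B δ`.  By (L1), (L2): `Λ = A₁.coeff (g - 1) / (lc(Q) ^ B R)`; `Q.coeff δ = lc(Q)`.  The
coefficient of the sum is `sylA ... (g - 1)`.  50 lines. -/
def TrmStmt : Prop := ∀ (L : Type) [Field L] (Q b P : Polynomial L) (Λ : RatFunc L →ₗ[L] L)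
  (B m : ℕ), IsRes Q Λ → 0 < B → 0 < Q.natDegree → b.natDegree ≤ m →
    P.degree < ((m + B * Q.natDegree : ℕ) : WithBot ℕ) →
    denT m B Q.natDegree Q b ≠ 0 → b ≠ 0 ∧ IsCoprime b Q ∧
      Λ (algebraMap (Polynomial L) (RatFunc L) P / (algebraMap (Polynomial L) (RatFunc L) Q ^ B *
        algebraMap (Polynomial L) (RatFunc L) b)) =
        numT m B Q.natDegree Q b P / denT m B Q.natDegree Q b

/-- ROW SDG.  DEGREES.  If the coefficients of `b`, `G`, `P` have total degree `≤ D` then `sylA`, `sylB`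
and the resultant have total degree `≤ (m + g) D + D`.

PROOF.  The entries of the Sylvester matrix are coefficients or `0`.  A determinant of an `n × n` matrix
with entries of total degree `≤ D` has total degree `≤ n D` (`Matrix.det_apply`,
`totalDegree_finsetSum_le`, `totalDegree_smul_le`, `MvPolynomial.totalDegree_finset_prod`); the entries
of the adjugate are such determinants (`Matrix.adjugate_apply`, `Matrix.updateRow` by `Pi.single _ 1`).
60 lines. -/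
def SdgStmt : Prop := ∀ (E : Type) [Field E] (m g D : ℕ)
  (b G P : Polynomial (MvPolynomial ℕ E)), (∀ i, (b.coeff i).totalDegree ≤ D) →
    (∀ i, (G.coeff i).totalDegree ≤ D) → (∀ i, (P.coeff i).totalDegree ≤ D) →
    (∀ i, (sylA m g b G P i).totalDegree ≤ (m + g) * D + D) ∧
    (∀ i, (sylB m g b G P i).totalDegree ≤ (m + g) * D + D) ∧
    (Polynomial.resultant b G m g).totalDegree ≤ (m + g) * D

/-- ROW SSB.  SUBRINGS.  If the coefficients of `b`, `G`, `P` are in a subring, so are `sylA`, `sylB` and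
the resultant.

PROOF.  As SDG, with `Subring.sum_mem`, `Subring.prod_mem`, `Subring.zsmul_mem`
(`Matrix.det_apply`).  50 lines. -/
def SsbStmt : Prop := ∀ (R : Type) [CommRing R] (S : Subring R) (m g : ℕ) (b G P : Polynomial R),
  (∀ i, b.coeff i ∈ S) → (∀ i, G.coeff i ∈ S) → (∀ i, P.coeff i ∈ S) →
    (∀ i, sylA m g b G P i ∈ S) ∧ (∀ i, sylB m g b G P i ∈ S) ∧
    Polynomial.resultant b G m g ∈ S

/-- ROW PSD.  PSEUDO-DIVISION with coefficients in a subring.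

PROOF.  Strong induction on the degree of `f`: if `natDegree f < natDegree G`: `M = 0`, `h = 0`,
`r = f`.  Otherwise `f' = C lc(G) f - C lc(f) X ^ (deg f - deg G) G` has smaller degree (or is `0`);
`C (lc(G) ^ M) f' = G h + r` gives `C (lc(G) ^ (M + 1)) f = G (h + C (lc(G) ^ M lc(f)) X ^ _) + r`.
50 lines. -/
def PsdStmt : Prop := ∀ (R : Type) [CommRing R] (S : Subring R) (f G : Polynomial R),
  0 < G.natDegree → (∀ n, f.coeff n ∈ S) → (∀ n, G.coeff n ∈ S) →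
    ∃ (M : ℕ) (h r : Polynomial R), Polynomial.C (G.leadingCoeff ^ M) * f = G * h + r ∧
      r.natDegree < G.natDegree ∧ (∀ n, h.coeff n ∈ S) ∧ ∀ n, r.coeff n ∈ S

/-! ## Many variables -/

/-- ROW PJB.  BASIC FACTS ON `PJ`.  (1) Membership by variables.  (2) Constants.  (3) `PJ` decreases.
(4) The coefficients of `toX j f` are in `PJ (insert j J)` if `f ∈ PJ J`.  (5) If all coefficients of
`p` are in `PJ J` and `j ∉ J` then `p(x_j) ∈ PJ J`.  (6) Divisors of nonzero elements of `PJ` are in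
`PJ` and have smaller total degree.  (7) A prime element has a variable.  (8) `f` is free of `x_j` iff
`f ∈ PJ {j}`.

PROOF (from TXC).  (1) `mem_supported`.  (5) `Polynomial.eval_eq_sum`, `X j ∈ PJ J`.  (6) For a product
of nonzero polynomials over a field `degreeOf i (f g) = degreeOf i f + degreeOf i g`
(`MvPolynomial.degreeOf_mul_eq`) and `totalDegree_mul_of_isDomain`; `i ∈ vars` iff `degreeOf i ≠ 0`.
(7) Otherwise it is a constant `C a`, `0` or a unit (`MvPolynomial.vars_eq_empty...`,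
`mem_supported`).  80 lines. -/
def PjbStmt : Prop := ∀ (E : Type) [Field E],
  (∀ (J : Finset ℕ) (f : MvPolynomial ℕ E), f ∈ PJ E J ↔ ∀ i ∈ f.vars, i ∉ J) ∧
  (∀ (J : Finset ℕ) (a : E), (C a : MvPolynomial ℕ E) ∈ PJ E J) ∧
  (∀ J J' : Finset ℕ, J ⊆ J' → PJ E J' ≤ PJ E J) ∧
  (∀ (J : Finset ℕ) (j : ℕ) (f : MvPolynomial ℕ E), f ∈ PJ E J →
    ∀ i, (toX j f).coeff i ∈ PJ E (insert j J)) ∧
  (∀ (J : Finset ℕ) (j : ℕ) (p : Polynomial (MvPolynomial ℕ E)), j ∉ J →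
    (∀ i, p.coeff i ∈ PJ E J) → p.eval (X j) ∈ PJ E J) ∧
  (∀ (J : Finset ℕ) (f g : MvPolynomial ℕ E), g ≠ 0 → f ∣ g →
    (g ∈ PJ E J → f ∈ PJ E J) ∧ f.totalDegree ≤ g.totalDegree) ∧
  (∀ q : MvPolynomial ℕ E, Prime q → ∃ j, j ∈ q.vars) ∧
  ∀ (j : ℕ) (f : MvPolynomial ℕ E), j ∉ f.vars ↔ f ∈ PJ E {j}

/-- ROW COP.  COPRIMALITY (Gauss): a prime `q` with the variable `x_j` and an element `b` not divisible
by `q` are coprime as polynomials in `x_j` over the field of fractions.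

PROOF (from TXC, PJB; no Gauss lemma needed).  Let `b~ = toX j b`, `q~ = toX j q`, `n`, `δ > 0` their
degrees, `S = PJ {j}`, a domain which contains their coefficients.  Suppose that they are not coprime
over `F = FF E`; then the resultant over `F` vanishes (`Polynomial.resultant_eq_zero_iff`,
`resultant_map_map`), so the determinant of the Sylvester matrix, which has entries in `S`, vanishes.
By `Matrix.exists_mulVec_eq_zero_iff` over the domain `S` there is a nonzero vector in its kernel, that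
is (as in `toMatrix_sylvesterMap'`) there are `u, v` with coefficients in `S`, not both zero,
`deg u < δ`, `deg v < n`, `b~ u + q~ v = 0`.  Alternatively get `u`, `v` over `F` from non-coprimality
(`u = q~ / gcd`, `v = - b~ / gcd`) and clear denominators; but the coefficients must be in `S`: use
`FractionRing S ⊆ F`, coprimality does not depend on the field (`Polynomial.isCoprime_map`).
Substitute `X = x_j`: `b u(x_j) = - q v(x_j)`, `q` is prime and does not divide `b`, so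
`q ∣ u(x_j)`.  If `u(x_j) ≠ 0` its degree in `x_j` is `deg u < δ` (the coefficients of `u` are free of
`x_j`), less than the degree of `q` in `x_j`: contradiction (`degreeOf_mul_eq`).  So `u(x_j) = 0`,
`u = 0` (coefficients free of `x_j`: `toX j (u(x_j)) = u`), `q~ v = 0`, `v = 0`.  120 lines.
STRONG. -/
def CopStmt : Prop := ∀ (E : Type) [Field E] (j : ℕ) (q b : MvPolynomial ℕ E), Prime q →
  j ∈ q.vars → ¬ q ∣ b → IsCoprime (atX j (io E) b) (atX j (io E) q)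

/-- ROW NZD.  The denominator `denT` does not vanish.

PROOF (from COP, TXC).  Map to `F = FF E` (SMP or `resultant_map_map`).  `b~` and `q~ ^ B` are coprime
over `F`, so their resultant with the exact formal degrees `n`, `B δ` is not `0`
(`resultant_eq_zero_iff`; one of them is not `0`); raising the formal degree of `b~` from `n` to `m`
multiplies it by `± lc(q~) ^ (B (m - n))` (`Polynomial.resultant_add_left_deg`), and
`q~.coeff δ = lc ≠ 0`.  60 lines. -/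
def NzdStmt : Prop := ∀ (E : Type) [Field E] (j : ℕ) (q b : MvPolynomial ℕ E) (m B : ℕ), Prime q →
  j ∈ q.vars → ¬ q ∣ b → (toX j b).natDegree ≤ m → 0 < B →
    denT m B (toX j q).natDegree (toX j q) (toX j b) ≠ 0

/-- ROW BEZ.  BOUNDED BEZOUT RELATION.

PROOF (from SYL, SDG, SSB, NZD, PJB, TXC).  Let `D ≥ 1` bound the degrees, `b~ = toX j b`,
`q~ = toX j q`, `δ = natDegree q~ > 0`, formal degrees `m = D`, `g = δ`.  SYL with `P = 1`:
`A₁ b~ + A₂ q~ = C res`.  Substitute `X = x_j` (`eval_toX`): `β = A₁(x_j)`, `α = A₂(x_j)`,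
`ρ = res`.  `ρ ≠ 0`: `denT D 1 δ = res q~.coeff δ ≠ 0` (NZD).  Degrees: SDG with `δ ≤ D`, plus `D` for
the powers of `x_j`: `D' = (2 D) D + 2 D` is enough.  `PJ`: the coefficients of `b~`, `q~` are in
`PJ (insert j J)` (PJB (4)), so `ρ` and the coefficients of `A₁`, `A₂` are too (SSB), and
`A₁(x_j) ∈ PJ J` if `j ∉ J` (PJB (3), (5)).  `ρ` is free of `x_j` (take `J = ∅`).  80 lines.
STRONG. -/
def BezStmt : Prop := ∀ D : ℕ, ∃ D' : ℕ, ∀ (E : Type) [Field E] (j : ℕ) (q b : MvPolynomial ℕ E),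
  Prime q → j ∈ q.vars → ¬ q ∣ b → q.totalDegree ≤ D → b.totalDegree ≤ D →
    ∃ α β ρ : MvPolynomial ℕ E, ρ = α * q + β * b ∧ ρ ≠ 0 ∧ j ∉ ρ.vars ∧ α.totalDegree ≤ D' ∧
      β.totalDegree ≤ D' ∧ ρ.totalDegree ≤ D' ∧
      ∀ J : Finset ℕ, j ∉ J → q ∈ PJ E J → b ∈ PJ E J →
        α ∈ PJ E J ∧ β ∈ PJ E J ∧ ρ ∈ PJ E (insert j J)

/-- ROW TRA.  THE UNIVERSAL RESIDUE OF ONE TERM `a / (q ^ B b)`.

PROOF (from TRM, SMP, SDG, SSB, NZD, PJB, TXC, RES).  `b~ = toX j b` etc., `δ = natDegree q~ ≤ D`,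
`P = X ^ c a~`, `m = D + c + 1`, `a' = numT m B δ q~ b~ P`, `b' = denT m B δ q~ b~`.  Degrees: the
coefficients of `q~ ^ B` have total degree `≤ B D` (induction), SDG; `q~.coeff δ ^ B`.  `PJ`: SSB and
PJB (4).  `b' ≠ 0`: NZD.  For `φ : A → L` with `φ b' ≠ 0`: `φ (q~.coeff δ) ≠ 0`, so
`natDegree (atX j φ q) = δ > 0` and `b' , a'` are mapped to `denT`, `numT` of the images (SMP, where
`atX j φ f = (toX j f).map φ` by definition and `atX j φ` of `P` is `X ^ c (a~).map φ`); TRM.  The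
quotient of the statement is written `X ^ c * (a / (q ^ B b))`.  120 lines.  STRONG. -/
def TraStmt : Prop := ∀ D B c : ℕ, 0 < B → ∃ D' : ℕ, ∀ (E : Type) [Field E] (j : ℕ)
  (q a b : MvPolynomial ℕ E), q.totalDegree ≤ D → a.totalDegree ≤ D → b.totalDegree ≤ D →
    j ∈ q.vars → ∃ a' b' : MvPolynomial ℕ E, a'.totalDegree ≤ D' ∧ b'.totalDegree ≤ D' ∧
      (∀ J : Finset ℕ, q ∈ PJ E J → a ∈ PJ E J → b ∈ PJ E J →
        a' ∈ PJ E (insert j J) ∧ b' ∈ PJ E (insert j J)) ∧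
      (Prime q → ¬ q ∣ b → b' ≠ 0) ∧
      ∀ (L : Type) [Field L] (φ : MvPolynomial ℕ E →+* L), φ b' ≠ 0 →
        atX j φ b ≠ 0 ∧ atX j φ q ≠ 0 ∧ 0 < (atX j φ q).natDegree ∧
        res (atX j φ q) (algebraMap (Polynomial L) (RatFunc L) (Polynomial.X ^ c) *
          (algebraMap (Polynomial L) (RatFunc L) (atX j φ a) /
            (algebraMap (Polynomial L) (RatFunc L) (atX j φ q) ^ B *
              algebraMap (Polynomial L) (RatFunc L) (atX j φ b)))) = φ a' / φ b'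

/-! ## The maps `lam` -/

/-- ROW LMK.  `lam` is linear over the fractions free of `x_j`.

PROOF (from TXC).  `up j (io κ) = algebraMap (C (io κ))` because `toX j κ = C κ`, and
`algebraMap (C c) * w = c • w` in `RatFunc` (`RatFunc.algebraMap_C`, `Algebra.smul_def`), and `res` is
linear.  The second formula from the first.  40 lines. -/
def LmkStmt : Prop := ∀ (E : Type) [Field E] (j : ℕ) (q κ : MvPolynomial ℕ E) (c : ℕ) (w : FF E),
  j ∉ κ.vars → lam j q c (io E κ * w) = io E κ * lam j q c w ∧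
    (κ ≠ 0 → lam j q c (w / io E κ) = lam j q c w / io E κ)

/-- ROW LMB.  `lam` vanishes on the fractions with denominator prime to `q`.

PROOF (from RES, TXC).  If `b = 0` the fraction is `0`.  Otherwise map `ρ = α q + β b` to `F[X]`,
`F = FF E`: `atX j (io E) ρ = C (io ρ)` is a unit, so `IsCoprime (atX b) (atX q)`; (L1) for
`X ^ c a~ / b~` (RES: `natDegree (atX j (io E) q) = natDegree (toX j q) > 0`, TXC).  40 lines. -/
def LmbStmt : Prop := ∀ (E : Type) [Field E] (j : ℕ) (q a b α β ρ : MvPolynomial ℕ E) (c : ℕ),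
  ρ = α * q + β * b → ρ ≠ 0 → j ∉ ρ.vars → j ∈ q.vars → lam j q c (io E a / io E b) = 0

/-- ROW LMC.  `lam` of `a / q ^ s` has only powers of the leading coefficient in the denominator.

PROOF (from PSD, RES, TXC, PJB).  If `s = 0`: LMB-like, `lam = 0` (denominator `1`; (L1) with `b = 1`),
`a' = 0`.  Let `s ≥ 1`, `G = (toX j q) ^ s`, of degree `s δ > 0` and leading coefficient `lc ^ s`.  PSD
for `X ^ c a~` with `S = PJ (insert j J)`: `lc ^ (s M) X ^ c a~ = G h + r`, `natDegree r < s δ`.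
Over `F`: `X ^ c a~ / q~ ^ s = (h + r / q~ ^ s) / lc ^ (s M)`; by (L1) (for `h / 1`) and (L2):
`lam = r.coeff (s δ - 1) / lc ^ (s M + s)`.  60 lines. -/
def LmcStmt : Prop := ∀ (E : Type) [Field E] (J : Finset ℕ) (j : ℕ) (q a : MvPolynomial ℕ E)
  (c s : ℕ), j ∈ q.vars → q ∈ PJ E J → a ∈ PJ E J → ∃ (M : ℕ) (a' : MvPolynomial ℕ E),
    a' ∈ PJ E (insert j J) ∧ lam j q c (io E a / io E q ^ s) = io E a' / io E (lcx j q) ^ M

/-- ROW LMT.  `lam` of one term: the special case `φ = io` of TRA.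

PROOF (from TRA).  `lam_apply`, `up_io`, `map_div₀`: `up j (io a / (io q ^ B * io b))` is the quotient
of the statement of TRA for `L = FF E`, `φ = io E`; `io b' ≠ 0`.  The other assertions are those of TRA.
40 lines. -/
def LmtStmt : Prop := ∀ D B c : ℕ, 0 < B → ∃ D' : ℕ, ∀ (E : Type) [Field E] (j : ℕ)
  (q a b : MvPolynomial ℕ E), q.totalDegree ≤ D → a.totalDegree ≤ D → b.totalDegree ≤ D →
    j ∈ q.vars → Prime q → ¬ q ∣ b → ∃ a' b' : MvPolynomial ℕ E, a'.totalDegree ≤ D' ∧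
      b'.totalDegree ≤ D' ∧ b' ≠ 0 ∧
      (∀ J : Finset ℕ, q ∈ PJ E J → a ∈ PJ E J → b ∈ PJ E J →
        a' ∈ PJ E (insert j J) ∧ b' ∈ PJ E (insert j J)) ∧
      lam j q c (io E a / (io E q ^ B * io E b)) = io E a' / io E b' ∧
      ∀ (L : Type) [Field L] (φ : MvPolynomial ℕ E →+* L), φ b' ≠ 0 →
        atX j φ b ≠ 0 ∧ atX j φ q ≠ 0 ∧ 0 < (atX j φ q).natDegree ∧
        res (atX j φ q) (algebraMap (Polynomial L) (RatFunc L) (Polynomial.X ^ c) *
          (algebraMap (Polynomial L) (RatFunc L) (atX j φ a) /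
            (algebraMap (Polynomial L) (RatFunc L) (atX j φ q) ^ B *
              algebraMap (Polynomial L) (RatFunc L) (atX j φ b)))) = φ a' / φ b'

/-- ROW DET.  DETECTION OF POLES.

PROOF (from BEZ, PSD, RES, LMK, LMB, TXC, PJB).  BEZ gives `ρ = α q + β g`, `ρ ≠ 0` free of `x_j`.
`ρ ^ B = α ^ B q ^ B + β' g` (`add_pow`, or induction).  So `W = f / (q ^ B g) =
(f β' / q ^ B + f α ^ B / g) / ρ ^ B`, and `lam_c W = lam_c (f β' / q ^ B) / ρ ^ B` (LMK, LMB).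
Let `G = q~ ^ B`, of degree `B δ`, and by PSD (`S = PJ {j}`) `lc ^ (B M) (f β')~ = G h + r`,
`natDegree r < B δ`, coefficients of `h`, `r` free of `x_j`.  Suppose `r ≠ 0` and let
`c = B δ - 1 - natDegree r`.  `X ^ c (f β')~ / G = (X ^ c h + X ^ c r / G) / lc ^ (B M)`, `X ^ c r` has
degree `B δ - 1` and leading coefficient `lc(r)`, so by (L1), (L2) `lam_c (f β' / q ^ B)` is
`lc(r) / lc ^ (B M + B) ≠ 0`: contradiction.  So `r = 0`, and with `X = x_j` (`eval_toX`):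
`lc ^ (B M) f β' = q ^ B h(x_j)`.  The prime `q` does not divide `lc` (`lc ≠ 0` is free of `x_j`, `q` is
not; PJB (6), (8)), so `q ^ B ∣ f β'` (`Prime.pow_dvd_of_dvd_mul_left`).  With `f β' = q ^ B h'`:
`W = (h' g + f α ^ B) / (ρ ^ B g)`, and `q` does not divide `ρ ^ B g`.  150 lines.  STRONG. -/
def DetStmt : Prop := ∀ (E : Type) [Field E] (j : ℕ) (q f g : MvPolynomial ℕ E) (B : ℕ), Prime q →
  j ∈ q.vars → ¬ q ∣ g → 0 < B →
    (∀ c < B * (toX j q).natDegree, lam j q c (io E f / (io E q ^ B * io E g)) = 0) →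
    NoPole q (io E f / (io E q ^ B * io E g))

/-! ## Sums of fractions -/

/-- ROW NMT.  `numer` and `total`.

PROOF.  Common denominator (`Finset.sum_div`, `Finset.prod_erase_mul`, `Finset.mul_prod_erase`).
Second: `numer` is compatible with ring homomorphisms.  Third: `total ≠ 0 ↔ numer ≠ 0` from the first.
40 lines. -/
def NmtStmt : Prop := ∀ (ι : Type) [Fintype ι] [DecidableEq ι],
  (∀ (R K : Type) [CommRing R] [Field K] (φ : R →+* K) (a b : ι → R), (∀ t, φ (b t) ≠ 0) →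
    ∑ t, φ (a t) / φ (b t) = φ (numer a b) / φ (∏ t, b t)) ∧
  (∀ (R S : Type) [CommRing R] [CommRing S] (φ : R →+* S) (a b : ι → R),
    φ (numer a b) = numer (fun t => φ (a t)) (fun t => φ (b t))) ∧
  ∀ (E : Type) [Field E] (a b : ι → MvPolynomial ℕ E), (∀ t, b t ≠ 0) →
    total a b = io E (numer a b) / io E (∏ t, b t) ∧ (total a b ≠ 0 ↔ numer a b ≠ 0)

/-- ROW UFL.  Divisibility in a factorial ring by prime powers.

PROOF.  `UniqueFactorizationMonoid.induction_on_prime` on `b` (for all `c`): units clear; `b = p b'`,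
`p` prime: `p ∣ c` by hypothesis (`n = 1`), `c = p c'`; the hypothesis passes to `b'`, `c'`: let
`q ^ n ∣ b'`.  If `q` is associated to `p` then `q ^ (n+1) ∣ b`, so `q ^ (n+1) ∣ c`, cancel.  Otherwise
`q ^ n ∣ b ∣`-hypothesis gives `q ^ n ∣ p c'`, and `q ∤ p`, so `q ^ n ∣ c'`
(`Prime.pow_dvd_of_dvd_mul_left`).  40 lines. -/
def UflStmt : Prop := ∀ (R : Type) [CommRing R] [IsDomain R] [UniqueFactorizationMonoid R] (b c : R),
  b ≠ 0 → (∀ q : R, Prime q → ∀ n : ℕ, q ^ n ∣ b → q ^ n ∣ c) → b ∣ c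

/-- ROW STA.  STOP, divisibility: if all poles of `∑ a_t / b_t` divide `e`, then `∏ b_t` divides
`numer a b e ^ D`, where `D` bounds the degrees of the `b_t`.

PROOF (from UFL, NMT, PJB).  UFL in `A`.  Let `q` be prime, `q ^ n ∣ ∏ b_t`.
If `q ∤ e`: `total = f / g` with `q ∤ g`, so `numer g = f ∏ b_t` (NMT), `q ^ n ∣ numer g`,
`q ^ n ∣ numer`.  If `q ∣ e`: for every `t` let `m_t` be maximal with `q ^ m_t ∣ b_t`; `m_t ≤ D`, because
`m_t ≤ totalDegree (q ^ m_t) ≤ totalDegree b_t` (`q` is not a constant, PJB (6), (7)).  Since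
`q ^ n ∣ b_t ∏ t' ≠ t, b_t'` with `b_t = q ^ m_t c_t`, `q ∤ c_t`: `q ^ (n - D) ∣ ∏ t' ≠ t, b_t'`.  So
`q ^ (n - D) ∣ numer`, and `q ^ D ∣ e ^ D`, `n ≤ (n - D) + D`.  100 lines.  STRONG. -/
def StaStmt : Prop := ∀ (E : Type) [Field E] (ι : Type) [Fintype ι] [DecidableEq ι]
  (a b : ι → MvPolynomial ℕ E) (e : MvPolynomial ℕ E) (D : ℕ), (∀ t, b t ≠ 0) →
    (∀ t, (b t).totalDegree ≤ D) → e ≠ 0 → (∀ q, Prime q → ¬ q ∣ e → NoPole q (total a b)) →
    ∏ t, b t ∣ numer a b * e ^ D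

/-- ROW STB.  STOP, degrees: `w ∏ b_t = numer a b e ^ D` implies `deg w ≤ D + D deg e`.

PROOF.  If `w = 0` clear.  `totalDegree_mul_of_isDomain`: the degree of a product of nonzero
polynomials is the sum.  `deg numer ≤ D + ∑ deg b_t`: each summand `a_t ∏ t' ≠ t, b_t'` has degree
`≤ deg a_t + ∑ t' ≠ t, deg b_t'`.  `deg w + ∑ deg b_t = deg numer + D deg e`.  50 lines. -/
def StbStmt : Prop := ∀ (E : Type) [Field E] (ι : Type) [Fintype ι] [DecidableEq ι]
  (a b : ι → MvPolynomial ℕ E) (e w : MvPolynomial ℕ E) (D : ℕ), (∀ t, b t ≠ 0) →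
    (∀ t, (a t).totalDegree ≤ D) → e ≠ 0 → w * ∏ t, b t = numer a b * e ^ D →
    w.totalDegree ≤ D + D * e.totalDegree

/-- ROW PIC.  A pole of a sum divides one of the denominators.

PROOF (from NMT).  Contrapositive: if `q ∤ b_t` for all `t` then `q ∤ ∏ b_t` (prime), and
`total = numer / ∏ b_t`.  20 lines. -/
def PicStmt : Prop := ∀ (E : Type) [Field E] (ι : Type) [Fintype ι] [DecidableEq ι]
  (a b : ι → MvPolynomial ℕ E) (q : MvPolynomial ℕ E), (∀ t, b t ≠ 0) → Prime q →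
    ¬ NoPole q (total a b) → ∃ t, q ∣ b t

/-- ROW FAC.  UNIFORM FORM OF THE TERMS: if `q` is prime and `b ≠ 0` has degree `≤ D`, then
`b = q ^ β b₁` with `β ≤ D`, `q ∤ b₁`, `deg b₁ ≤ D`, and `a / b = (a q ^ (D + 1 - β)) / (q ^ (D+1) b₁)`.

PROOF (from PJB).  `β` maximal (`FiniteMultiplicity`, or `multiplicity`); `β ≤ deg (q ^ β) ≤ deg b`
because `q` is not a constant.  Put `a₁ = a q ^ (D + 1 - β)`, of degree
`≤ deg a + (D + 1) deg q`; `b₁` divides `b`.  If `q = 0`... a prime is not `0`.  50 lines. -/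
def FacStmt : Prop := ∀ (E : Type) [Field E] (q a b : MvPolynomial ℕ E) (D : ℕ), Prime q → b ≠ 0 →
  q.totalDegree ≤ D → a.totalDegree ≤ D → b.totalDegree ≤ D → ∃ a₁ b₁ : MvPolynomial ℕ E,
    a₁.totalDegree ≤ D + (D + 1) * D ∧ b₁.totalDegree ≤ D ∧ ¬ q ∣ b₁ ∧ b₁ ≠ 0 ∧ b₁ ∣ b ∧
    a₁ * b = a * (q ^ (D + 1) * b₁) ∧
    ∀ J : Finset ℕ, q ∈ PJ E J → a ∈ PJ E J → b ∈ PJ E J → a₁ ∈ PJ E J ∧ b₁ ∈ PJ E J

/-- ROW DSM.  DETECTION FOR SUMS: if `q` is a pole of `∑ a_t / b_t` there is `c < (D + 1) δ` with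
`lam j q c (∑ a_t / b_t) ≠ 0`.

PROOF (from FAC, DET, NMT).  FAC for all terms: `∑ a_t / b_t = ∑ a₁_t / (q ^ (D+1) b₁_t) =
numer a₁ b₁ / (q ^ (D + 1) ∏ b₁_t)`, `q ∤ ∏ b₁_t`.  DET with `B = D + 1`.  40 lines. -/
def DsmStmt : Prop := ∀ (E : Type) [Field E] (ι : Type) [Fintype ι] [DecidableEq ι]
  (a b : ι → MvPolynomial ℕ E) (q : MvPolynomial ℕ E) (j D : ℕ), (∀ t, b t ≠ 0) →
    (∀ t, (a t).totalDegree ≤ D ∧ (b t).totalDegree ≤ D) → q.totalDegree ≤ D → Prime q →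
    j ∈ q.vars → ¬ NoPole q (total a b) →
    ∃ c < (D + 1) * (toX j q).natDegree, lam j q c (total a b) ≠ 0

/-! ## Specialisation -/

/-- ROW PHB.  BASIC FACTS ON `Phi`.  (1) `Phi J ζ f` and `f` have the same value at `ζ`.  (2) `Phi` and
`toX j` commute for `j ∈ J`.  (3) `Phi J ζ` after `Phi J' ζ` is `Phi J ζ` for `J ⊆ J'`.  (4) `Phi`
commutes with `∂ / ∂x_j`, `j ∈ J`.

PROOF.  (1), (2), (3): equality of two algebra homomorphisms on the variables
(`MvPolynomial.algHom_ext`, for (2) into `Polynomial (MvPolynomial ℕ E)`: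
`(toX j f).map (Phi J ζ) = toX j (Phi J ζ f)`).  (4) Both sides are derivations along `Phi`; induction
(`MvPolynomial.induction_on`), on the variables: `x_i ↦ C (ζ i)` for `i ∉ J` has derivative `0`, and
`j ≠ i`.  60 lines. -/
def PhbStmt : Prop := ∀ (E : Type) [Field E] (J : Finset ℕ) (ζ : ℕ → E) (f : MvPolynomial ℕ E),
  eval ζ (Phi J ζ f) = eval ζ f ∧
  (∀ j ∈ J, (toX j f).map (Phi J ζ : MvPolynomial ℕ E →ₐ[E] MvPolynomial ℕ E).toRingHom =
    toX j (Phi J ζ f)) ∧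
  (∀ J' : Finset ℕ, J ⊆ J' → Phi J ζ (Phi J' ζ f) = Phi J ζ f) ∧
  ∀ j ∈ J, pderiv j (Phi J ζ f) = Phi J ζ (pderiv j f)

/-- The property of the step which is needed for the transfer of non-vanishing: the second family is
obtained from the first one by a residue with respect to `x_j`. -/
def Trans {E : Type} [Field E] {ι : Type} [Fintype ι] [DecidableEq ι] (j : ℕ)
    (a b a' b' : ι → MvPolynomial ℕ E) : Prop :=
  ∀ (J : Finset ℕ) (ζ : ℕ → E), j ∈ J → (∀ t, Phi J ζ (b t) ≠ 0) → (∀ t, Phi J ζ (b' t) ≠ 0) →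
    Phi J ζ (numer a' b') ≠ 0 → Phi J ζ (numer a b) ≠ 0

/-- ROW TRS.  TRANSFER.

PROOF (from PHB, NMT).  Let `Φ = Phi J ζ`, `L = FF E`, `φ = io E ∘ Φ`.  Suppose `Φ (numer a b) = 0`.
`ψ = atX j φ`; `ψ (numer a b) = (toX j (numer a b)).map φ = ((toX j (numer a b)).map Φ).map io =
(toX j (Φ (numer a b))).map io = 0` (PHB (2)).  `ψ (b t) ≠ 0` in the same way (`atX_injective`).  So
`∑ t, ψ(a_t) / ψ(b_t) = 0` in `L(X)` (NMT for `φ := algebraMap.comp ψ`).  From `a₁ b = a q ^ B b₁`: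
`ψ(a_t)/ψ(b_t) = ψ(a₁_t) / (ψ(q) ^ B ψ(b₁_t))` (the denominators are not `0`).  Apply the additive map
`w ↦ res (ψ q) (X ^ c w)`: `∑ φ(a'_t)/φ(b'_t) = 0`, i.e. `φ (numer a' b') = 0` (NMT), so
`Φ (numer a' b') = 0` (`io_injective`).  80 lines.  STRONG. -/
def TrsStmt : Prop := ∀ (E : Type) [Field E] (ι : Type) [Fintype ι] [DecidableEq ι] (j B c : ℕ)
  (q : MvPolynomial ℕ E) (a b a₁ b₁ a' b' : ι → MvPolynomial ℕ E),
    (∀ t, b₁ t ≠ 0 ∧ a₁ t * b t = a t * (q ^ B * b₁ t)) →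
    (∀ (t : ι) (L : Type) [Field L] (φ : MvPolynomial ℕ E →+* L), φ (b' t) ≠ 0 →
        atX j φ (b₁ t) ≠ 0 ∧ atX j φ q ≠ 0 ∧ 0 < (atX j φ q).natDegree ∧
        res (atX j φ q) (algebraMap (Polynomial L) (RatFunc L) (Polynomial.X ^ c) *
          (algebraMap (Polynomial L) (RatFunc L) (atX j φ (a₁ t)) /
            (algebraMap (Polynomial L) (RatFunc L) (atX j φ q) ^ B *
              algebraMap (Polynomial L) (RatFunc L) (atX j φ (b₁ t))))) = φ (a' t) / φ (b' t)) →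
    Trans j a b a' b'

/-! ## Stages -/

/-- A stage `i` of the process for the terms `a0 t / b0 t`: a chain `j, q, ...` of length `i`, bounded by
`Q`, an additive map `Lf` with the properties (R1), (R2), (R3), and the fractions
`a t / b t = Lf (a0 t / b0 t)`, bounded by `R`, whose sum is not zero. -/
def Stage {E : Type} [Field E] {ι : Type} [Fintype ι] [DecidableEq ι]
    (a0 b0 : ι → MvPolynomial ℕ E) (Q : ℕ → ℕ) (R i : ℕ) (j : ℕ → ℕ)
    (q lc e ρ α β : ℕ → MvPolynomial ℕ E) (Lf : FF E →+ FF E) (a b : ι → MvPolynomial ℕ E) : Prop :=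
  FChain Q j i q lc e ρ α β ∧ e i ∈ Pj E j i ∧ e i ≠ 0 ∧ (e i).totalDegree ≤ R ∧
  (∀ (w : FF E), ∀ κ ∈ Pj E j i, κ ≠ 0 → Lf (w / io E κ) = Lf w / io E κ) ∧
  (∀ (f : MvPolynomial ℕ E) (s : ℕ), ∃ (f' : MvPolynomial ℕ E) (s' : ℕ), f' ∈ Pj E j i ∧
    Lf (io E f / io E (∏ m ∈ Finset.range i, q m) ^ s) = io E f' / io E (e i) ^ s') ∧
  (∀ l < i, ∀ (f u : MvPolynomial ℕ E) (s : ℕ), Good (Pj E j l) (Pj E j (l + 1)) (q l) u →
    Lf (io E f / io E ((∏ m ∈ Finset.range l, q m) ^ s * u)) = 0) ∧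
  (∀ t, Lf (io E (a0 t) / io E (b0 t)) = io E (a t) / io E (b t) ∧ a t ∈ Pj E j i ∧
    b t ∈ Pj E j i ∧ b t ≠ 0 ∧ (a t).totalDegree ≤ R ∧ (b t).totalDegree ≤ R) ∧
  numer a b ≠ 0

/-- ROW ST0.  Stage `0`.

PROOF.  `Lf = id`, `e 0 = 1`; everything is clear (`Pj E j 0 = PJ E ∅` is everything: PJB (1)).
30 lines. -/
def St0Stmt : Prop := ∀ (E : Type) [Field E] (ι : Type) [Fintype ι] [DecidableEq ι]
  (a0 b0 : ι → MvPolynomial ℕ E) (Q : ℕ → ℕ) (R : ℕ),
    (∀ t, b0 t ≠ 0 ∧ (a0 t).totalDegree ≤ R ∧ (b0 t).totalDegree ≤ R) → numer a0 b0 ≠ 0 →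
    Stage a0 b0 Q R 0 (fun _ => 0) (fun _ => 1) (fun _ => 1) (fun _ => 1) (fun _ => 1) (fun _ => 1)
      (fun _ => 1) (AddMonoidHom.id (FF E)) a0 b0

/-- ROW LSB.  (R2) for the next stage: for `f ∈ PJ J` the element `lam (f / (e ^ s' q ^ s))` is
`f' / (lc ρ) ^ M` with `f' ∈ PJ (insert j J)`.

PROOF (from LMK, LMB, LMC, PJB).  `ρ ^ (s + s') = (α q + β e) ^ (s + s') = α' q ^ s + β' e ^ s'` with
`α', β' ∈ PJ J` (`add_pow`: in every term the exponent of `q` is `≥ s` or that of `e` is `≥ s'`; or by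
induction).  So `f / (e ^ s' q ^ s) = (f α' / e ^ s' + f β' / q ^ s) / ρ ^ (s + s')`.  LMK for
`κ = ρ ^ (s+s')` (free of `x_j`), LMB for the first term (`e ^ s'` is prime to `q`:
`ρ ^ s' = α'' q + β ^ s' e ^ s'`), LMC for the second: `f'' / lc ^ M`.  Multiply numerator and
denominator to get a power of `lc ρ` (`lc ∈ PJ (insert j J)`: PJB (4)).  80 lines. -/
def LsbStmt : Prop := ∀ (E : Type) [Field E] (J : Finset ℕ) (j c : ℕ)
  (q e ρ α β : MvPolynomial ℕ E), j ∉ J → j ∈ q.vars → q ∈ PJ E J → e ∈ PJ E J → e ≠ 0 →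
    α ∈ PJ E J → β ∈ PJ E J → ρ = α * q + β * e → ρ ≠ 0 → ρ ∈ PJ E (insert j J) →
    ∀ (f : MvPolynomial ℕ E) (s s' : ℕ), f ∈ PJ E J → ∃ (f' : MvPolynomial ℕ E) (M : ℕ),
      f' ∈ PJ E (insert j J) ∧ lam j q c (io E f / (io E e ^ s' * io E q ^ s)) =
        io E f' / io E (lcx j q * ρ) ^ M

/-- ROW STC.  THE NEXT MAP: if `Lf` has the properties (R1), (R2), (R3) at stage `i`, then
`lam j_i q_i c ∘ Lf` has them at stage `i + 1`.

PROOF (from LMK, LMB, LSB, GOO, PJB).  `J = {j_0, ..., j_(i-1)}`, `Pj (i+1) = PJ (insert (j i) J)`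
(`Finset.range_succ`, `Finset.image_insert`).
(R1) `κ ∈ Pj (i+1) ≤ Pj i`, free of `x_(j i)`: LMK.
(R2) `io f / io (∏ m < i+1, q m) ^ s = (io f / io (∏ m < i, q m) ^ s) / io (q_i ^ s)`,
`q_i ^ s ∈ Pj i`, not zero, so (R1), (R2) at stage `i` give `Lf = io f' / (io e_i ^ s' io q_i ^ s)`; LSB;
`e_(i+1) = lc_i ρ_i`.
(R3) `l < i`: `lam (0) = 0`.  `l = i`: `u ∈ Pj i`; if `u = 0` the fraction is `0`.  Otherwise
`Lf (f / ((∏ q) ^ s u)) = io f' / io (e_i ^ s' u)` by (R1), (R2).  `e_i` is good (`α_i q_i + β_i e_i =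
ρ_i`), `u` is good, so `e_i ^ s' u` is good (GOO; `1` is good), and LMB gives `0`.
150 lines.  STRONG. -/
def StcStmt : Prop := ∀ (E : Type) [Field E] (i : ℕ) (j : ℕ → ℕ)
  (q e : ℕ → MvPolynomial ℕ E) (ρ α β : MvPolynomial ℕ E) (c : ℕ) (Lf : FF E →+ FF E),
    (∀ l < i, j i ≠ j l) → (∀ l ≤ i, q l ∈ Pj E j l ∧ q l ≠ 0) → j i ∈ (q i).vars →
    e i ∈ Pj E j i → e i ≠ 0 → α ∈ Pj E j i → β ∈ Pj E j i → ρ = α * q i + β * e i → ρ ≠ 0 →
    ρ ∈ Pj E j (i + 1) → e (i + 1) = lcx (j i) (q i) * ρ →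
    (∀ (w : FF E), ∀ κ ∈ Pj E j i, κ ≠ 0 → Lf (w / io E κ) = Lf w / io E κ) →
    (∀ (f : MvPolynomial ℕ E) (s : ℕ), ∃ (f' : MvPolynomial ℕ E) (s' : ℕ), f' ∈ Pj E j i ∧
      Lf (io E f / io E (∏ m ∈ Finset.range i, q m) ^ s) = io E f' / io E (e i) ^ s') →
    (∀ l < i, ∀ (f u : MvPolynomial ℕ E) (s : ℕ), Good (Pj E j l) (Pj E j (l + 1)) (q l) u →
      Lf (io E f / io E ((∏ m ∈ Finset.range l, q m) ^ s * u)) = 0) →
    (∀ (w : FF E), ∀ κ ∈ Pj E j (i + 1), κ ≠ 0 →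
      lam (j i) (q i) c (Lf (w / io E κ)) = lam (j i) (q i) c (Lf w) / io E κ) ∧
    (∀ (f : MvPolynomial ℕ E) (s : ℕ), ∃ (f' : MvPolynomial ℕ E) (s' : ℕ), f' ∈ Pj E j (i + 1) ∧
      lam (j i) (q i) c (Lf (io E f / io E (∏ m ∈ Finset.range (i + 1), q m) ^ s)) =
        io E f' / io E (e (i + 1)) ^ s') ∧
    ∀ l < i + 1, ∀ (f u : MvPolynomial ℕ E) (s : ℕ), Good (Pj E j l) (Pj E j (l + 1)) (q l) u →
      lam (j i) (q i) c (Lf (io E f / io E ((∏ m ∈ Finset.range l, q m) ^ s * u))) = 0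

/-- ROW BND.  UNIFORM BOUNDS: one bound for all `c` and all smaller degrees.

PROOF (from BEZ, LMT).  `G R` = the bound of BEZ for `D = R`, plus `R`; `F R` = the sum over
`c ≤ (R + 1) R` of the bounds of LMT for `D = R + (R+1) R`, `B = R + 1`, plus `R + G R` (for
`e_(i+1) = lc ρ`, `deg lc ≤ deg q ≤ R`).  The statements are monotone in `D'`.  60 lines. -/
def BndStmt : Prop := ∃ F G : ℕ → ℕ, (∀ R, R ≤ G R ∧ R + G R ≤ F R) ∧
  (∀ (R : ℕ) (E : Type) [Field E] (j : ℕ) (q b : MvPolynomial ℕ E), Prime q → j ∈ q.vars →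
    ¬ q ∣ b → q.totalDegree ≤ R → b.totalDegree ≤ R →
    ∃ α β ρ : MvPolynomial ℕ E, ρ = α * q + β * b ∧ ρ ≠ 0 ∧ j ∉ ρ.vars ∧ α.totalDegree ≤ G R ∧
      β.totalDegree ≤ G R ∧ ρ.totalDegree ≤ G R ∧
      ∀ J : Finset ℕ, j ∉ J → q ∈ PJ E J → b ∈ PJ E J →
        α ∈ PJ E J ∧ β ∈ PJ E J ∧ ρ ∈ PJ E (insert j J)) ∧
  ∀ (R : ℕ) (E : Type) [Field E] (j c : ℕ) (q a b : MvPolynomial ℕ E), c < (R + 1) * R →
    q.totalDegree ≤ R → a.totalDegree ≤ R + (R + 1) * R → b.totalDegree ≤ R →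
    j ∈ q.vars → Prime q → ¬ q ∣ b → ∃ a' b' : MvPolynomial ℕ E, a'.totalDegree ≤ F R ∧
      b'.totalDegree ≤ F R ∧ b' ≠ 0 ∧
      (∀ J : Finset ℕ, q ∈ PJ E J → a ∈ PJ E J → b ∈ PJ E J →
        a' ∈ PJ E (insert j J) ∧ b' ∈ PJ E (insert j J)) ∧
      lam j q c (io E a / (io E q ^ (R + 1) * io E b)) = io E a' / io E b' ∧
      ∀ (L : Type) [Field L] (φ : MvPolynomial ℕ E →+* L), φ b' ≠ 0 →
        atX j φ b ≠ 0 ∧ atX j φ q ≠ 0 ∧ 0 < (atX j φ q).natDegree ∧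
        res (atX j φ q) (algebraMap (Polynomial L) (RatFunc L) (Polynomial.X ^ c) *
          (algebraMap (Polynomial L) (RatFunc L) (atX j φ a) /
            (algebraMap (Polynomial L) (RatFunc L) (atX j φ q) ^ (R + 1) *
              algebraMap (Polynomial L) (RatFunc L) (atX j φ b)))) = φ a' / φ b'

/-- ROW STE.  THE STEP.

PROOF (from BND, PIC, PJB, TXC, FAC, DSM, TRS, STC, NMT).  Let `F`, `G` be as in BND.  Let `p` be a
prime, not a divisor of `e i`, with `¬ NoPole p (total a b)`.  PIC: `p ∣ b t` for some `t`, so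
`p ∈ Pj i` and `deg p ≤ R` (PJB (6)); let `x_m` be a variable of `p` (PJB (7)); `m ∉ {j_0..j_(i-1)}`
(PJB (1)).  Let `j' = Function.update j i m`, `q' = update q i p`, `lc' = update lc i (lcx m p)`, `ρ'`,
`α'`, `β'` updated by the elements of BND (first part, for `b = e i`), `e' = update e (i+1) (lc ρ)`.
FChain of length `i + 1`: the old conditions for `l < i` are unchanged (`Pj E j' l = Pj E j l` for
`l ≤ i`), the new ones for `l = i` by construction; `Q i ≥ G R ≥ R`.  DSM: `c < (R+1) δ ≤ (R+1) R` with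
`lam m p c (total a b) ≠ 0` (`total a b = ∑ io (a t) / io (b t)`).  FAC for all `t` (`D = R`), then BND
(second part) for `a₁ t`, `b₁ t` gives `a' t`, `b' t`.  `Lf' = (lam m p c).comp Lf`: (R1)-(R3) by STC.
(R4): `Lf' (a0 t / b0 t) = lam (a t / b t) = lam (a₁ t / (p ^ (R+1) b₁ t)) = a' t / b' t`.
(R5): `∑ a' t / b' t = lam m p c (total a b) ≠ 0`, NMT.  `e' (i+1) = lc ρ ∈ Pj (i+1)`, not zero, of
degree `≤ R + G R ≤ F R`.  Trans: TRS.  200 lines.  STRONG. -/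
def SteStmt : Prop := ∃ F G : ℕ → ℕ, (∀ R, R ≤ G R) ∧ ∀ (E : Type) [Field E] (ι : Type) [Fintype ι]
  [DecidableEq ι] (a0 b0 : ι → MvPolynomial ℕ E) (Q : ℕ → ℕ) (R i : ℕ) (j : ℕ → ℕ)
  (q lc e ρ α β : ℕ → MvPolynomial ℕ E) (Lf : FF E →+ FF E) (a b : ι → MvPolynomial ℕ E),
    G R ≤ Q i → Stage a0 b0 Q R i j q lc e ρ α β Lf a b →
    (∃ p, Prime p ∧ ¬ p ∣ e i ∧ ¬ NoPole p (total a b)) →
    ∃ (j' : ℕ → ℕ) (q' lc' e' ρ' α' β' : ℕ → MvPolynomial ℕ E) (Lf' : FF E →+ FF E)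
      (a' b' : ι → MvPolynomial ℕ E), (∀ l < i, j' l = j l) ∧
      Stage a0 b0 Q (F R) (i + 1) j' q' lc' e' ρ' α' β' Lf' a' b' ∧ Trans (j' i) a b a' b'

/-- ROW STO.  THE STOP: if all poles of `∑ a_t / b_t` divide `e`, the specialisation at `J` does not
vanish.

PROOF (from STA, STB, PHB).  STA: `w ∏ b_t = numer a b e ^ D`; `w ≠ 0`.  STB: `w` has bounded
degree.  `H = {w, e} ∪ {b_t}`.  For `ζ` with `h(ζ) ≠ 0` on `H`: `Phi J ζ h ≠ 0` because
`eval ζ (Phi J ζ h) = eval ζ h ≠ 0`.  `Phi w ∏ Phi b_t = Phi (numer) Phi(e) ^ D`, so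
`Phi (numer a b) ≠ 0`.  50 lines. -/
def StoStmt : Prop := ∀ (E : Type) [Field E] (ι : Type) [Fintype ι] [DecidableEq ι]
  (a b : ι → MvPolynomial ℕ E) (e : MvPolynomial ℕ E) (D : ℕ) (J : Finset ℕ), (∀ t, b t ≠ 0) →
    (∀ t, (a t).totalDegree ≤ D ∧ (b t).totalDegree ≤ D) → e ≠ 0 → e.totalDegree ≤ D →
    numer a b ≠ 0 → (∀ q, Prime q → ¬ q ∣ e → NoPole q (total a b)) →
    ∃ H : Finset (MvPolynomial ℕ E), (∀ h ∈ H, h ≠ 0 ∧ h.totalDegree ≤ D + D * D) ∧
      ∀ ζ : ℕ → E, (∀ h ∈ H, eval ζ h ≠ 0) →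
        (∀ t, Phi J ζ (b t) ≠ 0) ∧ Phi J ζ (numer a b) ≠ 0

/-- ROW DOW.  DOWNWARD RECURSION from a bound `r` on the length of the chains.

PROOF (from STE, STO, PHB).  Let `F`, `G` be as in STE, `Rs 0 = D`, `Rs (i+1) = F (Rs i)`,
`Q i = G (Rs i)`; `Δ = ∑ i ≤ r, (Rs i + Rs i * Rs i)`.  Hypothesis: no stage `r` (for these `Q`) exists.
Claim for `i ≤ r`, by induction on `r - i`: for every stage `i` (bounded by `Rs i`) there are `J ⊇
{j_0, ..., j_(i-1)}` with `|J| ≤ r` and a finite set `H` of nonzero polynomials of degree `≤ Δ`, such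
that `h(ζ) ≠ 0` on `H` implies `Phi J ζ (b t) ≠ 0` for all `t` and `Phi J ζ (numer a b) ≠ 0`.
`i = r`: vacuous.  `i < r`: if all poles of `total a b` divide `e i`: STO with
`J = (Finset.range i).image j`, of cardinality `≤ i ≤ r`.  Otherwise STE gives a stage `i + 1`; take its
`J`, `H'` and `H = H' ∪ {b t}` (`Finset.image`); `j' i ∈ J`, so `Trans` applies; the `b t` are nonzero
of degree `≤ Rs i`, `Phi J ζ (b t) ≠ 0` by PHB (1).  120 lines.  STRONG. -/
def DowStmt : Prop := ∀ D : ℕ, ∃ Q : ℕ → ℕ, ∃ Rs : ℕ → ℕ, Rs 0 = D ∧ ∀ r : ℕ, ∃ Δ : ℕ,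
  ∀ (E : Type) [Field E] (ι : Type) [Fintype ι] [DecidableEq ι] (a0 b0 : ι → MvPolynomial ℕ E),
    (∀ (j : ℕ → ℕ) (q lc e ρ α β : ℕ → MvPolynomial ℕ E) (Lf : FF E →+ FF E)
      (a b : ι → MvPolynomial ℕ E), ¬ Stage a0 b0 Q (Rs r) r j q lc e ρ α β Lf a b) →
    ∀ (j : ℕ → ℕ) (q lc e ρ α β : ℕ → MvPolynomial ℕ E) (Lf : FF E →+ FF E)
      (a b : ι → MvPolynomial ℕ E), Stage a0 b0 Q (Rs 0) 0 j q lc e ρ α β Lf a b →
      ∃ (J : Finset ℕ) (H : Finset (MvPolynomial ℕ E)), J.card ≤ r ∧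
        (∀ h ∈ H, h ≠ 0 ∧ h.totalDegree ≤ Δ) ∧ ∀ ζ : ℕ → E, (∀ h ∈ H, eval ζ h ≠ 0) →
          Phi J ζ (numer a b) ≠ 0

/-- ROW RSS.  THEOREM RS.

PROOF (from TER, DOW, ST0, NMT).  DOW gives `Q`, `Rs`; TER for `E`, `D`, `Q` gives `r`; DOW gives `Δ`.
There is no stage `r`: for such a stage `total a b = Lf (∑ a0_t / b0_t)` is not `0` (R5, NMT), so
`Lf (a0 t / b0 t) ≠ 0` for some `t`; by TER `a0 t / b0 t ∈ N_r`, a sum of terms killed by `Lf` (R3; `Lf`
is additive): contradiction.  Start with ST0.  60 lines. -/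
def RssStmt : Prop := ∀ (E : Type) [Field E] [CharZero E] (D : ℕ), ∃ r Δ : ℕ,
  ∀ (ι : Type) [Fintype ι] [DecidableEq ι] (a b : ι → MvPolynomial ℕ E),
    (∀ t, b t ≠ 0 ∧ (a t).totalDegree ≤ D ∧ (b t).totalDegree ≤ D) → numer a b ≠ 0 →
    ∃ (J : Finset ℕ) (H : Finset (MvPolynomial ℕ E)), J.card ≤ r ∧
      (∀ h ∈ H, h ≠ 0 ∧ h.totalDegree ≤ Δ) ∧ ∀ ζ : ℕ → E, (∀ h ∈ H, eval ζ h ≠ 0) →
        Phi J ζ (numer a b) ≠ 0

end Pool.Agent.RS
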