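import Pool.Agent.RS.Defs

set_option autoImplicit false

/-!
# Squad RS, block T: the termination theorem

Every row is a `Prop`, to be proved as a theorem `xxx : XxxStmt` (or `(h : YyyStmt) → XxxStmt`); the
complete proofs are in the docstrings.
-/

namespace Pool.Agent.RS

open MvPolynomial

/-- The hypotheses on the subrings `P_0 = B ⊇ P_1 ⊇ ... ⊇ P_r`: `P_l` is the polynomial ring
`P_(l+1)[x_l]`. -/
def Tower {B : Type} [CommRing B] (P : ℕ → Subring B) (x : ℕ → B) (r : ℕ) : Prop :=
  (∀ b, b ∈ P 0) ∧ ∀ l < r, P (l + 1) ≤ P l ∧ x l ∈ P l ∧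
    (∀ f ∈ P l, ∃ p : Polynomial B, (∀ n, p.coeff n ∈ P (l + 1)) ∧ p.eval (x l) = f) ∧
    ∀ p : Polynomial B, (∀ n, p.coeff n ∈ P (l + 1)) → p.eval (x l) = 0 → p = 0

/-! ## Ideals stable under derivations -/

/-- ROW EXO.  ONE VARIABLE.  Let `I` be an ideal of `k[Y]`, stable under `∂ / ∂y`.  Every `f ∈ I` is
`∑ i < n, c_i y ^ i` with `c_i ∈ I`, `y` not in `c_i`, and the variables of `c_i` are variables of `f`.

PROOF.  Write `f = ∑ i < n, c_i y ^ i` with `c_i` free of `y` (for example by `MvPolynomial.induction_on`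
or by splitting the monomials of `f` according to the exponent of `y`: `c_i` is the sum over the
`m ∈ f.support` with `m y = i` of `monomial (m.erase y) (coeff m f)`).  Induction on `n`: applying
`∂/∂y` `n - 1` times gives `(n - 1)! c_(n-1) ∈ I`, so `c_(n-1) ∈ I` (characteristic 0, `I` is an ideal,
`C ((n-1)!)⁻¹`), subtract `c_(n-1) y ^ (n-1)` and continue.  60 lines. -/
def ExoStmt : Prop := ∀ (k Y : Type) [Field k] [CharZero k] (y : Y) (I : Ideal (MvPolynomial Y k)),
  (∀ f ∈ I, pderiv y f ∈ I) → ∀ f ∈ I, ∃ (n : ℕ) (c : ℕ → MvPolynomial Y k),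
    (∀ i < n, c i ∈ I ∧ y ∉ (c i).vars ∧ (c i).vars ⊆ f.vars) ∧
    f = ∑ i ∈ Finset.range n, c i * X y ^ i

/-- ROW EXT.  An ideal `I` of `k[Y]` which is stable under all `∂ / ∂y`, `y ∉ s`, is generated by
`I ∩ k[s]`.

PROOF (from EXO).  Strong induction on the number of variables of `f ∈ I` outside `s` (the cardinality
of `f.vars.filter (· ∉ s)`, classical decidability).  If there are none, `f` itself is a generator
(`mem_supported`).  Otherwise take such a variable `y`, write `f = ∑ c_i y ^ i` by EXO; each `c_i ∈ I`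
has fewer variables outside `s`, so lies in the span, hence so does `f`.  40 lines. -/
def ExtStmt : Prop := ∀ (k Y : Type) [Field k] [CharZero k] (s : Set Y)
  (I : Ideal (MvPolynomial Y k)), (∀ y, y ∉ s → ∀ f ∈ I, pderiv y f ∈ I) →
    ∀ f ∈ I, f ∈ Ideal.span {g | g ∈ I ∧ g ∈ supported k s}

/-- ROW PRM.  For a prime ideal `p` of `k[Y]` the ideal generated by `p ∩ k[s]` is prime.

PROOF.  `k[Y]` is isomorphic to `k[s][sᶜ]` (`MvPolynomial.renameEquiv` along
`(Equiv.Set.sumCompl s).symm` followed by `Equiv.sumComm` and `MvPolynomial.sumAlgEquiv`, or any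
equivalent route), so that `k[s] = supported k s` corresponds to the constants `MvPolynomial s k`.
Under this isomorphism the ideal is `Ideal.map C q`, where `q` is the prime ideal of `MvPolynomial s k`
of all `g` with `rename Subtype.val g ∈ p`, and `MvPolynomial sᶜ (MvPolynomial s k) ⧸ map C q` is
`MvPolynomial sᶜ (MvPolynomial s k ⧸ q)` (`MvPolynomial.quotientEquivQuotientMvPolynomial`), a domain.
Alternative: direct proof with coefficients.  80 lines.  STRONG. -/
def PrmStmt : Prop := ∀ (k Y : Type) [Field k] (s : Set Y) (p : Ideal (MvPolynomial Y k)), p.IsPrime →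
  (Ideal.span {g | g ∈ p ∧ g ∈ supported k s}).IsPrime

/-- ROW DER.  A derivation of a domain extends to its field of fractions.

PROOF.  Let `K = FractionRing B`.  The map `B → DualNumber K` (or `TrivSqZeroExt K K`),
`b ↦ b + ε D b`, is a ring homomorphism; the images of the nonzero elements are units (their first
component is a unit of the field `K`), so it extends to `K → DualNumber K` by `IsLocalization.lift`
(or `IsLocalization.map`/`lift` for `nonZeroDivisors B`); the first component of this extension is the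
identity (`IsLocalization.ringHom_ext`), and the second component is `D'`.  50 lines. -/
def DerStmt : Prop := ∀ (k B : Type) [Field k] [CommRing B] [IsDomain B] [Algebra k B]
  (D : Derivation k B B), ∃ D' : FractionRing B →+ FractionRing B,
    (∀ b, D' (algebraMap B (FractionRing B) b) = algebraMap B (FractionRing B) (D b)) ∧
    ∀ x y, D' (x * y) = x * D' y + y * D' x

/-! ## The subgroup `N_r` -/

/-- ROW GOO.  `Good` elements: products are good; nonzero elements of `P'` are good.

PROOF.  If `α q + β u = ρ` and `α' q + β' u' = ρ'` then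
`(α α' q + α β' u' + α' β u) q + (β β') (u u') = ρ ρ'`, which is not zero in a domain.  For
`f ∈ P' - 0`: `0 q + 1 f = f`.  20 lines. -/
def GooStmt : Prop := ∀ (B : Type) [CommRing B] [IsDomain B] (P P' : Subring B) (q : B), P' ≤ P →
  q ∈ P → (∀ u u', Good P P' q u → Good P P' q u' → Good P P' q (u * u')) ∧
    ∀ f ∈ P', f ≠ 0 → Good P P' q f

/-- ROW NMD.  `N_r` is closed under addition and under multiplication by elements of `B`, and contains
`0`; it increases with `r`.

PROOF.  Termwise: `a / (Q ^ s u) + a' / (Q ^ s' u') = (a Q ^ s' u' + a' Q ^ s u) / (Q ^ (s + s') u u')`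
with `Q = q_0 ... q_(l-1)`; `u u'` is good (`α q + β u = ρ`, `α' q + β' u' = ρ'` give
`(α α' q + α β' u' + α' β u) q + β β' u u' = ρ ρ' ≠ 0`).  All denominators are nonzero: good `u` for
which `u = 0` would give `α q_l ∈ P_(l+1)`: NOT excluded by the definition, so treat it: `x / 0 = 0`,
and for `u = 0` replace `(a, u)` by `(0, 1)` (`1` is good: `0 q + 1 1 = 1`).  Zero: `a = 0`, `u = 1`.
Multiplication: `b a`.  Increasing: new terms `a = 0`, `u = 1`.  60 lines. -/
def NmdStmt : Prop := ∀ (B K : Type) [CommRing B] [IsDomain B] [Field K] [Algebra B K],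
  Function.Injective (algebraMap B K) → ∀ (P : ℕ → Subring B) (q : ℕ → B) (r : ℕ),
    (∀ l < r, q l ∈ P l ∧ q l ≠ 0 ∧ P (l + 1) ≤ P l) →
    InN (K := K) P q r 0 ∧ (∀ w w' : K, InN P q r w → InN P q r w' → InN P q r (w + w')) ∧
    (∀ (b : B) (w : K), InN P q r w → InN P q r (algebraMap B K b * w)) ∧
    ∀ (r' : ℕ) (w : K), r' ≤ r → InN P q r' w → InN P q r w

/-- ROW NTM.  A single term: `a / ((q_0 ... q_(l-1)) ^ s u) ∈ N_r` for `l < r` and good `u`.

PROOF.  Take all other terms `a = 0`, `u = 1` (good, because `0 q + 1 1 = 1`).  20 lines. -/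
def NtmStmt : Prop := ∀ (B K : Type) [CommRing B] [IsDomain B] [Field K] [Algebra B K],
  ∀ (P : ℕ → Subring B) (q : ℕ → B) (r l s : ℕ) (a u : B), l < r →
    Good (P l) (P (l + 1)) (q l) u →
    InN (K := K) P q r (algebraMap B K a / algebraMap B K ((∏ i ∈ Finset.range l, q i) ^ s * u))

/-- ROW NDR.  `N_r` is stable under derivations.

PROOF (from NMD, NTM).  `D' (a / v) = (D a v - a D v) / v ^ 2` for `v ≠ 0` (from `D' (v * (a / v))`),
with `v = Q ^ s u`, `v ^ 2 = Q ^ (2 s) u ^ 2`, `Q = q_0 ... q_(l-1)`, `u ^ 2` good (see NMD).  The terms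
with `u = 0` are `0`.  Sum over `l` with NMD.  60 lines. -/
def NdrStmt : Prop := ∀ (k B : Type) [Field k] [CommRing B] [IsDomain B] [Algebra k B]
  (D : Derivation k B B) (D' : FractionRing B →+ FractionRing B),
    (∀ b, D' (algebraMap B (FractionRing B) b) = algebraMap B (FractionRing B) (D b)) →
    (∀ x y, D' (x * y) = x * D' y + y * D' x) → ∀ (P : ℕ → Subring B) (q : ℕ → B) (r : ℕ),
    (∀ l < r, q l ∈ P l ∧ q l ≠ 0 ∧ P (l + 1) ≤ P l) →
    ∀ w : FractionRing B, InN P q r w → InN P q r (D' w)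

/-- ROW NIV.  `N_r` is stable under division by nonzero elements of `P_r`.

PROOF.  Replace `u_l` by `f u_l`: `α q + β u = ρ` gives `(α f) q + β (f u) = f ρ`, in `P_(l+1)` and not
zero (`P_r ≤ P_(l+1) ≤ P_l` for `l < r`).  The inequality `P_r ≤ P_(l+1)` by induction.  40 lines. -/
def NivStmt : Prop := ∀ (B K : Type) [CommRing B] [IsDomain B] [Field K] [Algebra B K],
  Function.Injective (algebraMap B K) → ∀ (P : ℕ → Subring B) (q : ℕ → B) (r : ℕ),
    (∀ l < r, P (l + 1) ≤ P l) → ∀ f ∈ P r, f ≠ 0 → ∀ w : K, InN P q r w →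
      InN P q r (w / algebraMap B K f)

/-! ## Partial fractions -/

/-- ROW PFF.  PARTIAL FRACTIONS OVER A FIELD, form without fractions: for `Q, b ∈ L[X]` not zero there
are `M`, `u` prime to `Q`, `c`, `c'` with `u Q ^ M = b (c Q ^ M + c' u)` (that is
`1 / b = c / u + c' / Q ^ M`).

PROOF.  Strong induction on the degree of `b`.  If `b` is prime to `Q`: `u = b`, `M = 0`, `c = 1`,
`c' = 0`.  Otherwise let `π = gcd(b, Q)` (`EuclideanDomain.gcd` or `IsCoprime` via
`isCoprime_of_irreducible_dvd`: a common irreducible factor `π`), `b = π b'`, `Q = π h`; by induction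
`u Q ^ M = b' (c Q ^ M + c' u)`.  Multiply `1 / b' = c / u + c' / Q ^ M` by `1 / π = h / Q`:
`1 / b = h c / (Q u) + h c' / Q ^ (M+1)`; with `α Q + β u = 1`: `1 / (Q u) = α / u + β / Q`, so
`1 / b = (h c α) / u + (h c β Q ^ M + h c') / Q ^ (M+1)`.  Check: the identity
`u Q ^ (M+1) = π b' (h c α Q ^ (M+1) + (h c β Q ^ M + h c') u)` follows from the three relations by
`linear_combination`.  50 lines. -/
def PffStmt : Prop := ∀ (L : Type) [Field L] (Q b : Polynomial L), Q ≠ 0 → b ≠ 0 →
  ∃ (M : ℕ) (u c c' : Polynomial L), IsCoprime u Q ∧ u ≠ 0 ∧ u * Q ^ M = b * (c * Q ^ M + c' * u)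

/-- ROW PFR.  The same over a domain `R`, with cleared denominators.

PROOF (from PFF).  Apply PFF over `L = FractionRing R` to the images of `Q` and `b`; multiply `u`, `c`,
`c'` and the coefficients of `α Q + β u = 1` by nonzero elements of `R` to bring them to `R[X]`
(`IsLocalization.integerNormalization` or: every finite family of elements of `L[X]` has a common
denominator `f ∈ R`, `f ≠ 0`).  If `u₁ = f₁ u`, `c₁ = f₂ c`, `c₁' = f₂ c'` have coefficients in `R`
then `u₁ (f₁ f₂) Q ^ M = b (f₁ f₂ c · f₁ ... )`: choose one common denominator `f` of all of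
`u, c, c', α, β`; with `u₁ = f u`: `u₁ · f ^ 2 · Q ^ M = b ((f c) f · (f Q ^ M) + (f c') f u₁ ... )`.
Precisely: multiply `u Q ^ M = b (c Q ^ M + c' u)` by `f ^ 3`:
`(f u) (f ^ 2) Q ^ M = b ((f c) (f ^ 2) Q ^ M + (f ^ 2 c') (f u))`, and `(f α) f Q + (f β) (f u) = f ^ 2`.
So take `f ^ 2` for the `f` of the statement.  60 lines. -/
def PfrStmt : Prop := ∀ (R : Type) [CommRing R] [IsDomain R] (Q b : Polynomial R), Q ≠ 0 → b ≠ 0 →
  ∃ (M : ℕ) (u c c' α β : Polynomial R) (f ρ : R), u ≠ 0 ∧ f ≠ 0 ∧ ρ ≠ 0 ∧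
    α * Q + β * u = Polynomial.C ρ ∧
    u * Polynomial.C f * Q ^ M = b * (c * (Polynomial.C f * Q ^ M) + c' * u)

/-- ROW PFB.  The same in `P = P'[x] ⊆ B`.

PROOF (from PFR).  Let `R = P'` (a subring of the domain `B`).  Evaluation at `x` is an injective ring
homomorphism `R[X] → B` with image `P` (hypotheses `hgen`, `hinj`; polynomials over `B` with
coefficients in `P'` are the images of polynomials over `R`: `Polynomial.toSubring` or
`Polynomial.lifts`).  Apply PFR to preimages of `q` and `b` and evaluate.  50 lines. -/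
def PfbStmt : Prop := ∀ (B : Type) [CommRing B] [IsDomain B] (P P' : Subring B) (x : B),
  P' ≤ P → x ∈ P →
  (∀ f ∈ P, ∃ p : Polynomial B, (∀ n, p.coeff n ∈ P') ∧ p.eval x = f) →
  (∀ p : Polynomial B, (∀ n, p.coeff n ∈ P') → p.eval x = 0 → p = 0) →
  ∀ q ∈ P, q ≠ 0 → ∀ b ∈ P, b ≠ 0 → ∃ (M : ℕ) (u c c' f : B), Good P P' q u ∧ u ≠ 0 ∧ f ∈ P' ∧
    f ≠ 0 ∧ c ∈ P ∧ c' ∈ P ∧ u * f * q ^ M = b * (c * (f * q ^ M) + c' * u)

/-- ROW NDC.  DECOMPOSITION: for `b ≠ 0` in `B` the fraction `1 / b` is the sum of an element of `N_r`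
and of a fraction `a / ((q_0 ... q_(r-1)) ^ s f)` with `f ∈ P_r`, `f ≠ 0`.

PROOF (from PFB, NMD, NTM).  Induction on `r` (for fixed `b`).  `r = 0`: `a = 1`, `f = b ∈ P_0`.  Step
from `l` to `l + 1`: `1 / b = w + a / (Q ^ s b')`, `Q = q_0 ... q_(l-1)`, `b' ∈ P_l`, `b' ≠ 0`.  PFB in
`P_l = P_(l+1)[x_l]` for `q_l` and `b'`: `1 / b' = c / u + c' / (f q_l ^ M)`.  Then
`a c / (Q ^ s u) ∈ M_l` (NTM) and `a c' / (Q ^ s f q_l ^ M) = a c' Q ^ M q_l ^ s / ((Q q_l) ^ (s + M) f)`.
60 lines. -/
def NdcStmt : Prop := ∀ (B K : Type) [CommRing B] [IsDomain B] [Field K] [Algebra B K],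
  Function.Injective (algebraMap B K) → ∀ (P : ℕ → Subring B) (x q : ℕ → B) (r : ℕ), Tower P x r →
    (∀ l < r, q l ∈ P l ∧ q l ≠ 0) → ∀ b : B, b ≠ 0 →
      ∃ (w : K) (s : ℕ) (a f : B), InN P q r w ∧ f ∈ P r ∧ f ≠ 0 ∧ (1 : K) / algebraMap B K b =
        w + algebraMap B K a / algebraMap B K ((∏ i ∈ Finset.range r, q i) ^ s * f)

/-- ROW NPW.  `q_l ^ s a / ((q_0 ... q_(r-1)) ^ s f) ∈ N_r` for `l < r`, `f ∈ P_r - 0`.

PROOF (from NTM, GOO).  The fraction is `a / ((q_0 ... q_(l-1)) ^ s u)` with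
`u = (q_(l+1) ... q_(r-1)) ^ s f`, a nonzero element of `P_(l+1)` (because `q_m ∈ P_m ≤ P_(l+1)` for
`m ≥ l + 1` and `P_r ≤ P_(l+1)`), hence good.  Split `∏ i ∈ range r` at `l`
(`Finset.prod_range_mul_prod_Ico`, `Finset.prod_eq_prod_Ico_succ_bot`).  50 lines. -/
def NpwStmt : Prop := ∀ (B K : Type) [CommRing B] [IsDomain B] [Field K] [Algebra B K],
  Function.Injective (algebraMap B K) → ∀ (P : ℕ → Subring B) (q : ℕ → B) (r : ℕ),
    (∀ l < r, q l ∈ P l ∧ q l ≠ 0 ∧ P (l + 1) ≤ P l) → ∀ l < r, ∀ (s : ℕ) (a f : B), f ∈ P r →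
      f ≠ 0 → InN (K := K) P q r (algebraMap B K (q l) ^ s * (algebraMap B K a /
        algebraMap B K ((∏ i ∈ Finset.range r, q i) ^ s * f)))

/-! ## Primes over the chain -/

/-- ROW EIV.  Let `p` be a prime ideal with `q_l ∈ p` for `l < r` and `p ∩ P_r = 0`.  Then
`e_l ∉ p` for `l ≤ r` and `lc_l ∉ p` for `l < r`.

PROOF.  `e_r ∈ P_r` and `e_r ≠ 0`: if `r = 0`, `e_0 = 1`; otherwise `e_r = lc_(r-1) ρ_(r-1)`,
`lc_(r-1) = leadingCoeff = p.coeff _ ∈ P_r`, both nonzero.  So `e_r ∉ p`.  Descending: if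
`e_(l+1) = lc_l ρ_l ∉ p` then `lc_l ∉ p`, `ρ_l ∉ p`, and `ρ_l = α_l q_l + β_l e_l` with `q_l ∈ p`, so
`e_l ∉ p`.  40 lines. -/
def EivStmt : Prop := ∀ (B : Type) [CommRing B] [IsDomain B] (P : ℕ → Subring B) (x : ℕ → B) (r : ℕ)
  (q lc e ρ α β : ℕ → B), AChain P x r q lc e ρ α β → ∀ p : Ideal B, p.IsPrime →
    (∀ l < r, q l ∈ p) → (∀ f ∈ P r, f ∈ p → f = 0) →
      (∀ l ≤ r, e l ∉ p) ∧ ∀ l < r, lc l ∉ p

/-- ROW ALG.  Let `p` be a prime ideal with `p ∩ P_r = 0`, `q_l ∈ p` and `lc_l ∉ p` (`l < r`).  Every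
`f ∈ B` is algebraic over `P_r` modulo `p`: `g(f) ∈ p` for some polynomial `g ≠ 0` with coefficients in
`P_r`.

PROOF.  In the domain `B ⧸ p` let `R_l` be the image of `P_l` (a subring), so `R_r` is isomorphic to
`P_r` and `R_0 = ⊤`.  Show by descending induction that every element of `R_l` is algebraic over `R_r`
(`IsAlgebraic R_r`).  `R_l` is generated over `R_(l+1)` by the image of `x_l` (`Tower`), which is a root
of the image of the polynomial `p_l` of `AChain` (`p_l(x_l) = q_l ∈ p`), whose leading coefficient is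
not `0` modulo `p`; so `x_l` is algebraic over `R_(l+1)`, hence over `R_r` (transitivity of algebraic
extensions, e.g. in `FractionRing (B ⧸ p)` or `IsAlgebraic.trans`), and sums and products of algebraic
elements are algebraic (`IsAlgebraic.add`, `IsAlgebraic.mul`, or `Subalgebra.algebraicClosure`).
Finally lift a polynomial over `R_r` to one over `P_r`.  120 lines.  STRONG. -/
def AlgStmt : Prop := ∀ (B : Type) [CommRing B] [IsDomain B] (P : ℕ → Subring B) (x : ℕ → B) (r : ℕ)
  (q lc e ρ α β : ℕ → B), Tower P x r → AChain P x r q lc e ρ α β → ∀ p : Ideal B, p.IsPrime →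
    (∀ l < r, q l ∈ p) → (∀ l < r, lc l ∉ p) → (∀ f ∈ P r, f ∈ p → f = 0) →
      ∀ f : B, ∃ g : Polynomial B, g ≠ 0 ∧ (∀ n, g.coeff n ∈ P r) ∧ g.eval f ∈ p

/-- ROW EQP.  Let `q ⊆ p` be ideals, `q` prime, every element of `B` algebraic over the subring `R`
modulo `q`, `p ∩ R = 0`.  Then `p = q`.

PROOF.  Let `f ∈ p`, `f ∉ q`; take `g ≠ 0` with coefficients in `R`, `g(f) ∈ q`, of minimal degree
(`natDegree`).  `g(0) = g(f) - f h(f)` lies in `p ∩ R = 0`, so `g = X h` (`Polynomial.X_dvd_iff`,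
`divX`), `f h(f) ∈ q`, so `h(f) ∈ q`, `h ≠ 0` has smaller degree and coefficients in `R`:
contradiction.  40 lines. -/
def EqpStmt : Prop := ∀ (B : Type) [CommRing B] (R : Subring B) (q p : Ideal B), q.IsPrime →
  q ≤ p → (∀ f : B, ∃ g : Polynomial B, g ≠ 0 ∧ (∀ n, g.coeff n ∈ R) ∧ g.eval f ∈ q) →
    (∀ f ∈ R, f ∈ p → f = 0) → p = q

/-- ROW MNP.  SEPARABLE RELATION: if `x` is algebraic over the subring `R` modulo the prime `p`,
`p ∩ R = 0`, characteristic `0`, there is a polynomial `g` with coefficients in `R`, `g(x) ∈ p`,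
`g'(x) ∉ p`.

PROOF.  `g ≠ 0` of minimal degree (`natDegree`) with `g(x) ∈ p`.  Its degree is positive (a constant
would be in `p ∩ R = 0`).  `g' ≠ 0` (characteristic `0`; `B` is a `ℚ`-algebra, a domain) has smaller
degree and coefficients in `R`, so `g'(x) ∉ p`.  40 lines. -/
def MnpStmt : Prop := ∀ (k B : Type) [Field k] [CharZero k] [CommRing B] [IsDomain B] [Algebra k B]
  (R : Subring B) (p : Ideal B) (x : B), p.IsPrime → (∀ f ∈ R, f ∈ p → f = 0) →
    (∃ g : Polynomial B, g ≠ 0 ∧ (∀ n, g.coeff n ∈ R) ∧ g.eval x ∈ p) →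
    ∃ g : Polynomial B, (∀ n, g.coeff n ∈ R) ∧ g.eval x ∈ p ∧ g.derivative.eval x ∉ p

/-- ROW JAC.  JACOBIAN BOUND.  Let `p` be a prime ideal of `k[Y]`, `s` a finite set of variables,
`y_i ∈ (p ∩ k[s])` (the ideal generated by it), `D_i` derivations, `t_i ∉ p`, and let `D_i' y_i` be
congruent to `t_i` for `i = i'` and to `0` otherwise, modulo `p` (`i, i' < r`).  Then `r ≤ |s|`.

PROOF.  `y_i = ∑ a, c_(i,a) g_a` with `g_a ∈ p ∩ k[s]` (`Submodule.mem_span_iff_exists_finset_subset`,
`Finsupp.mem_span_iff_linearCombination`), so modulo `p`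
`D_i' y_i = ∑ a, c_(i,a) D_i' g_a = ∑ v ∈ s, (∑ a, c_(i,a) ∂g_a/∂v) D_i' v`, because every derivation
satisfies `D g = ∑ v, ∂g/∂v D(X_v)` (`MvPolynomial.mkDerivation`, `derivation_ext`, for
`g ∈ supported k s` only `v ∈ s` occur).  In the field of fractions of `k[Y] ⧸ p` the diagonal matrix of
the `t_i`, of rank `r`, is a product of an `r × |s|` and an `|s| × r` matrix (`Matrix.rank_mul_le_left`,
`Matrix.rank_le_width`; or a linear map `K^r → K^s → K^r` which is injective,
`LinearMap.finrank_le_finrank_of_injective`).  100 lines.  STRONG. -/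
def JacStmt : Prop := ∀ (k Y : Type) [Field k] (s : Finset Y) (r : ℕ)
  (D : Fin r → Derivation k (MvPolynomial Y k) (MvPolynomial Y k)) (p : Ideal (MvPolynomial Y k))
  (y t : Fin r → MvPolynomial Y k), p.IsPrime →
    (∀ i, y i ∈ Ideal.span {g | g ∈ p ∧ g ∈ supported k (s : Set Y)}) → (∀ i, t i ∉ p) →
    (∀ i, D i (y i) - t i ∈ p) → (∀ i i', i ≠ i' → D i' (y i) ∈ p) → r ≤ s.card

/-- ROW ABS.  THE ABSTRACT TERMINATION THEOREM.

PROOF (from EXT, PRM, DER, NMD, NDR, NIV, NDC, NPW, EIV, ALG, EQP, MNP, JAC).  Let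
`B = k[Y]`, `K = FractionRing B`, `I = {f ∈ B : f / b0 ∈ N_r}`: an ideal (NMD).
* `1 ∉ I`: otherwise `a0 / b0 = a0 (1 / b0) ∈ N_r` (NMD).  `I ∩ P_r = 0`: if `f ∈ P_r - 0`,
  `f / b0 ∈ N_r` then `1 / b0 ∈ N_r` by NIV.
* `I` is stable under `∂ / ∂y`, `y ∉ s`: `∂ b0 / ∂y = 0` (`b0 ∈ supported k s`;
  `MvPolynomial.pderiv_eq_zero_of_notMem_vars`), so `D'(f / b0) = (∂ f/∂y) / b0` (DER), NDR.  By EXT,
  `I` is generated by `I ∩ k[s]`.
* For `l < r` some power of `q_l` is in `I`: NDC for `b0` and NPW (and NMD).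
* Let `p ⊇ I` be a prime ideal disjoint from the submonoid `P_r - 0` (`Ideal.exists_le_prime_disjoint`;
  the nonzero elements of `P_r` are a submonoid of the domain `B`).  Let `𝔮` be the ideal generated by
  `p ∩ k[s]`: prime (PRM), `I ≤ 𝔮 ≤ p`, so `q_l ∈ 𝔮` and `q_l ∈ p`.  EIV for `p`: `lc_l ∉ p`, so
  `lc_l ∉ 𝔮`.  ALG for `𝔮`, EQP: `p = 𝔮`.
* For `l < r` let `g_l` be as in MNP for `x_l` (ALG for `p`).  `y_l = g_l(x_l) ∈ p = 𝔮`,
  `t_l = g_l'(x_l) ∉ p`.  `D_l' y_l = t_l` if `l = l'` and `0` otherwise, because `D_l'` kills the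
  coefficients of `g_l` (hypothesis on `P_r`) and `D_l' x_l = δ` (`Derivation.leibniz_pow`, or
  `Polynomial` induction).  JAC gives `r ≤ |s|`.
150 lines.  STRONG. -/
def AbsStmt : Prop := ∀ (k Y : Type) [Field k] [CharZero k] (r : ℕ)
  (D : ℕ → Derivation k (MvPolynomial Y k) (MvPolynomial Y k))
  (P : ℕ → Subring (MvPolynomial Y k)) (x q lc e ρ α β : ℕ → MvPolynomial Y k)
  (a0 b0 : MvPolynomial Y k) (s : Finset Y), Tower P x r → AChain P x r q lc e ρ α β →
    (∀ l < r, q l ≠ 0) → (∀ l < r, ∀ f ∈ P r, D l f = 0) →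
    (∀ l < r, ∀ m < r, D l (x m) = if l = m then 1 else 0) → b0 ≠ 0 →
    b0 ∈ supported k (s : Set Y) →
    ¬ InN (K := FractionRing (MvPolynomial Y k)) P q r
      (algebraMap (MvPolynomial Y k) (FractionRing (MvPolynomial Y k)) a0 /
        algebraMap (MvPolynomial Y k) (FractionRing (MvPolynomial Y k)) b0) → r ≤ s.card

/-! ## Graded algebras with enough derivations are polynomial rings (Erman, Sam, Snowden) -/

/-- The submodules `gr n` are the homogeneous components of a graded algebra. -/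
def Graded {k B : Type} [Field k] [CommRing B] [Algebra k B] (gr : ℕ → Submodule k B) : Prop :=
  (∀ f, f ∈ gr 0 ↔ ∃ c : k, f = algebraMap k B c) ∧
  (∀ m n, ∀ f ∈ gr m, ∀ g ∈ gr n, f * g ∈ gr (m + n)) ∧
  (∀ f : B, ∃ (N : ℕ) (c : ℕ → B), (∀ n, c n ∈ gr n) ∧ f = ∑ n ∈ Finset.range N, c n) ∧
  ∀ (N : ℕ) (c : ℕ → B), (∀ n, c n ∈ gr n) → ∑ n ∈ Finset.range N, c n = 0 → ∀ n < N, c n = 0

/-- The decomposable elements of degree `n`. -/
def Dec {k B : Type} [Field k] [CommRing B] [Algebra k B] (gr : ℕ → Submodule k B) (n : ℕ) :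
    Submodule k B :=
  Submodule.span k {f | ∃ a b : ℕ, 0 < a ∧ 0 < b ∧ a + b = n ∧ ∃ g ∈ gr a, ∃ h ∈ gr b, f = g * h}

/-- `g y`, of degree `w y > 0`, are generators, minimal in every degree: the generators of degree `n`
are linearly independent modulo the decomposable elements. -/
def MinGen {k B : Type} [Field k] [CommRing B] [Algebra k B] (gr : ℕ → Submodule k B) {Y : Type}
    (w : Y → ℕ) (g : Y → B) : Prop :=
  (∀ y, 0 < w y ∧ g y ∈ gr (w y)) ∧ Function.Surjective (aeval g : MvPolynomial Y k →ₐ[k] B) ∧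
  ∀ (n : ℕ) (c : Y →₀ k), (∀ y ∈ c.support, w y = n) → (c.sum fun y a => a • g y) ∈ Dec gr n → c = 0

/-- ROW GNA.  In every degree `n > 0` there is a family of elements of `gr n`, linearly independent
modulo `Dec n`, which together with `Dec n` spans `gr n`.

PROOF.  `Dec gr n ≤ gr n`.  Take a basis of a complement of (the comap of) `Dec n` in `gr n`
(`Submodule.exists_isCompl`, `Module.Basis.ofVectorSpace`; index type a set of vectors, so in `Type`).
40 lines. -/
def GnaStmt : Prop := ∀ (k B : Type) [Field k] [CommRing B] [Algebra k B] (gr : ℕ → Submodule k B),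
  Graded gr → ∀ n : ℕ, 0 < n → ∃ (Z : Type) (g : Z → B), (∀ z, g z ∈ gr n) ∧
    (∀ c : Z →₀ k, (c.sum fun z a => a • g z) ∈ Dec gr n → c = 0) ∧
    ∀ f ∈ gr n, ∃ c : Z →₀ k, f - (c.sum fun z a => a • g z) ∈ Dec gr n

/-- ROW GNB.  Existence of minimal generators.

PROOF (from GNA).  `Y = Σ n, Z (n+1)` with the families of GNA, `w ⟨n, z⟩ = n + 1`.  Independence: a
`c` whose support has `w y = n` lives on one summand.  Surjectivity: the range of `aeval g` is a
subalgebra `R`; by strong induction on `n`, `gr n ≤ R`: `gr 0` consists of constants; for `n > 0` every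
`f ∈ gr n` is a combination of `g`'s plus an element of `Dec n`, whose spanning products have factors in
`gr a`, `gr b` with `a, b < n`.  Every element is a sum of homogeneous ones.  90 lines.  STRONG. -/
def GnbStmt : Prop := ∀ (k B : Type) [Field k] [CommRing B] [Algebra k B] (gr : ℕ → Submodule k B),
  Graded gr → ∃ (Y : Type) (w : Y → ℕ) (g : Y → B), MinGen gr w g

/-- ROW HOM.  (1) The value at the generators of a weighted homogeneous polynomial of weight `n` is in
`gr n`.  (2) Every element of `gr n` is such a value.  (3) If `P(g) = 0` then `P_n(g) = 0` for every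
weighted homogeneous component `P_n`.

PROOF.  (1) On monomials, by `Graded` (products of elements of `gr (w y)`, constants in `gr 0`).
(2) `f = P(g)` by surjectivity, `P = ∑ n, P_n` (`weightedHomogeneousComponent`), both
`f - P_n(g)` and the other `P_m(g)` are homogeneous, uniqueness in `Graded`: `f = P_n(g)`.  (3) The same
uniqueness.  80 lines. -/
def HomStmt : Prop := ∀ (k B : Type) [Field k] [CommRing B] [Algebra k B] (gr : ℕ → Submodule k B)
  (Y : Type) (w : Y → ℕ) (g : Y → B), Graded gr → MinGen gr w g →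
    (∀ (n : ℕ) (P : MvPolynomial Y k), IsWeightedHomogeneous w P n → aeval g P ∈ gr n) ∧
    (∀ (n : ℕ), ∀ f ∈ gr n, ∃ P : MvPolynomial Y k, IsWeightedHomogeneous w P n ∧ aeval g P = f) ∧
    ∀ P : MvPolynomial Y k, aeval g P = 0 → ∀ n, aeval g (weightedHomogeneousComponent w n P) = 0

/-- ROW LFT.  LIFT OF A DERIVATION: a derivation `d` of `B` of degree `-1` lifts to a derivation `D` of
`k[Y]` with `D P(g) = d (P(g))`, which maps the weighted homogeneous polynomials of weight `n + 1` to
those of weight `n`, kills weight `0`, and `D X_y` is weighted homogeneous of weight `w y - 1`.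

PROOF (from HOM).  For every `y` choose `D_y` weighted homogeneous of weight `w y - 1` with
`D_y(g) = d (g y) ∈ gr (w y - 1)` (HOM (2)); `D = mkDerivation k D_y` (`MvPolynomial.mkDerivation`);
`aeval g ∘ D` and `d ∘ aeval g` are derivations along `aeval g` which agree at the variables
(induction `MvPolynomial.induction_on`).  Weights: `D (monomial) = ∑ y, m_y monomial(m - y) D_y`
(`mkDerivation_monomial`), weight `n + 1 - w y + w y - 1 = n`.  90 lines.  STRONG. -/
def LftStmt : Prop := ∀ (k B : Type) [Field k] [CommRing B] [Algebra k B] (gr : ℕ → Submodule k B)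
  (Y : Type) (w : Y → ℕ) (g : Y → B) (d : Derivation k B B), Graded gr → MinGen gr w g →
    (∀ n, ∀ f ∈ gr (n + 1), d f ∈ gr n) →
    ∃ D : Derivation k (MvPolynomial Y k) (MvPolynomial Y k),
      (∀ P, aeval g (D P) = d (aeval g P)) ∧ (∀ y, IsWeightedHomogeneous w (D (X y)) (w y - 1)) ∧
      ∀ (n : ℕ) (P : MvPolynomial Y k), IsWeightedHomogeneous w P (n + 1) →
        IsWeightedHomogeneous w (D P) n

/-- ROW TOP.  THE TOP TWO COEFFICIENTS.  Let `P ≠ 0` be weighted homogeneous, `y` a variable of `P` of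
maximal weight.  Then `P = ∑ i ≤ n, a_i y ^ i` with `n ≥ 1`, `a_n ≠ 0`, the `a_i` free of `y`, their
variables are variables of `P`, `a_n` weighted homogeneous of weight `v` with `v + n w(y)` the weight of
`P`, and `a_(n-1)` weighted homogeneous of weight `v + w(y)`.  For a derivation `D` such that
`D X_z` is free of `y` for all variables `z` of `P`, and `D P = 0`: `D a_n = 0` and
`D a_(n-1) + n a_n D(X_y) = 0`.

PROOF.  Group the monomials of `P` by the exponent of `y` (as in EXO).  `D a_i` and `D X_y` are free of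
`y` (`D a = ∑ z ∈ vars a, ∂a/∂z D X_z`), and `D P = ∑ (D a_i) y ^ i + ∑ i a_i y ^ (i-1) D X_y`; compare
the coefficients of `y ^ n` and `y ^ (n-1)` (uniqueness of the expansion in powers of `y` with
coefficients free of `y`).  120 lines.  STRONG. -/
def TopStmt : Prop := ∀ (k Y : Type) [Field k] [CharZero k] (w : Y → ℕ) (P : MvPolynomial Y k)
  (N : ℕ) (y : Y), IsWeightedHomogeneous w P N → y ∈ P.vars →
    ∃ (n v : ℕ) (a b : MvPolynomial Y k), 0 < n ∧ a ≠ 0 ∧ y ∉ a.vars ∧ y ∉ b.vars ∧
      a.vars ⊆ P.vars ∧ b.vars ⊆ P.vars ∧ IsWeightedHomogeneous w a v ∧ v + n * w y = N ∧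
      IsWeightedHomogeneous w b (v + w y) ∧
      ∀ D : Derivation k (MvPolynomial Y k) (MvPolynomial Y k),
        (∀ z ∈ P.vars, y ∉ (D (X z)).vars) → D P = 0 → D a = 0 ∧ D b + (n : k) • (a * D (X y)) = 0

/-- ROW LIN.  A weighted homogeneous polynomial `b` of weight `n > 0` is `∑ c_z z + R`, the sum over
finitely many variables `z` of `b` of weight `n`, and `R(g) ∈ Dec n`.

PROOF.  Monomials of `b` of total degree `1` are `c z` with `w z = n`; a monomial of total degree
`≥ 2` is a product of a variable and of a monomial, both of positive weight `< n` (HOM (1)); total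
degree `0` has weight `0`.  60 lines. -/
def LinStmt : Prop := ∀ (k B : Type) [Field k] [CommRing B] [Algebra k B] (gr : ℕ → Submodule k B)
  (Y : Type) (w : Y → ℕ) (g : Y → B), Graded gr → MinGen gr w g → ∀ (n : ℕ), 0 < n →
    ∀ b : MvPolynomial Y k, IsWeightedHomogeneous w b n → ∃ c : Y →₀ k,
      (∀ z ∈ c.support, w z = n ∧ z ∈ b.vars) ∧ aeval g b - (c.sum fun z a => a • g z) ∈ Dec gr n

/-- ROW IND.  Minimal generators are algebraically independent, if there are enough derivations.

PROOF (from HOM, LFT, TOP, LIN).  Suppose not; by HOM (3) there is a weighted homogeneous `P ≠ 0` with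
`P(g) = 0`; take one of minimal weight `N`.  `P` is not a constant, so it has a variable; let `y` be one
of maximal weight (`Finset.exists_max_image`).  For `d` in the family let `D` be as in LFT: `D P` has
weight `N - 1` (`N ≥ w y > 0`) and `(D P)(g) = d 0 = 0`, so `D P = 0` by minimality.  For a variable `z`
of `P` the polynomial `D X_z` is weighted homogeneous of weight `w z - 1 < w y`, so `y` does not occur
in it (all weights are positive).  TOP: `D a = 0` and `D b + n a D X_y = 0`.  Hence `d (a(g)) = 0` for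
all `d`, `a(g)` is a constant (hypothesis `hker`), i.e. in `gr 0`.  If `v > 0` then `a(g) ∈ gr v` is `0`
(uniqueness in `Graded`), `v < N`: contradiction to the minimality of `P`.  So `v = 0`, `a = C α` is a
constant (all weights positive), `α ≠ 0`.  `R = b + n a X_y` has weight `w y` and
`d (R(g)) = (D b + n a D X_y)(g) = 0`, so `R(g) ∈ gr 0 ∩ gr (w y) = 0`.  By LIN for `b` (weight `w y`,
`y ∉ b.vars`): `0 = R(g) = ∑ c_z g_z + n α g_y` modulo `Dec (w y)`, with `y ∉ c.support`: contradiction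
to `MinGen`, because the coefficient `n α` of `g_y` is not `0`.  120 lines.  STRONG. -/
def IndStmt : Prop := ∀ (k B Δ : Type) [Field k] [CharZero k] [CommRing B] [Nontrivial B]
  [Algebra k B]
  (gr : ℕ → Submodule k B) (Y : Type) (w : Y → ℕ) (g : Y → B) (d : Δ → Derivation k B B),
    Graded gr → MinGen gr w g → (∀ δ n, ∀ f ∈ gr (n + 1), d δ f ∈ gr n) →
    (∀ f, (∀ δ, d δ f = 0) → f ∈ gr 0) →
    Function.Injective (aeval g : MvPolynomial Y k →ₐ[k] B)

/-- ROW ESS.  A graded algebra with enough derivations is a polynomial ring.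

PROOF (from GNB, IND).  `AlgEquiv.ofBijective`.  10 lines. -/
def EssStmt : Prop := ∀ (k B Δ : Type) [Field k] [CharZero k] [CommRing B] [Nontrivial B]
  [Algebra k B]
  (gr : ℕ → Submodule k B) (d : Δ → Derivation k B B), Graded gr →
    (∀ δ n, ∀ f ∈ gr (n + 1), d δ f ∈ gr n) → (∀ f, (∀ δ, d δ f = 0) → f ∈ gr 0) →
    ∃ Y : Type, Nonempty (MvPolynomial Y k ≃ₐ[k] B)

/-! ## Germs -/

/-- ROW GGR.  `BG` is graded by the germs of homogeneous polynomials.

PROOF.  Degree `0`: a homogeneous polynomial of degree `0` is a constant `C (coeff 0 f)`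
(`MvPolynomial.totalDegree_eq_zero_iff_eq_C` or `IsHomogeneous` API), the germ of `C (c n)` is
`algebraMap` of the germ of `c` (`algebraMap r = r • 1`).  Products: `IsHomogeneous.mul`.
Decomposition: for `f = gm F`, degrees `≤ D`, `N = D + 1`, `c n` = germ of
`homogeneousComponent n (F m)` (`sum_homogeneousComponent`).  Independence: `∑ gm (C_n) = 0` holds
almost everywhere for the sequences, apply `homogeneousComponent n` (`homogeneousComponent_of_mem`).
100 lines.  STRONG. -/
def GgrStmt : Prop := ∀ (E : Type) [Field E], Graded (homo E)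

/-- ROW GDE.  The derivations `dBG E J` have degree `-1`, and their common kernel is `homo 0`.

PROOF.  `pderiv` of a homogeneous polynomial of degree `n + 1` is homogeneous of degree `n`
(`IsHomogeneous.pderiv`).  Kernel: let `f = gm F` with `dBG E J f = 0` for all `J`.  For every `n`
choose `J n` such that `pderiv (J n) (F n) ≠ 0` if there is one (otherwise `J n = 0`).  For almost all
`n`, `pderiv (J n) (F n) = 0` (`Filter.Germ.coe_eq`), so all partial derivatives of `F n` vanish and
`F n` is a constant (characteristic `0`: a monomial `m ≠ 0` of the support with `m i ≠ 0` gives a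
nonzero coefficient of `pderiv i`, `coeff_pderiv`), so `f` is the germ of constants.  80 lines. -/
def GdeStmt : Prop := ∀ (E : Type) [Field E] [CharZero E],
  (∀ (J : ℕ → ℕ) (n : ℕ), ∀ f ∈ homo E (n + 1), dBG E J f ∈ homo E n) ∧
  ∀ f : BG E, (∀ J : ℕ → ℕ, dBG E J f = 0) → f ∈ homo E 0

/-- ROW GCZ.  The field of germs has characteristic `0`.

PROOF.  `E → KS E`, `c ↦` constant germ, is an injective ring homomorphism
(`Filter.Germ.const`); or `charZero_of_injective_ringHom`.  15 lines. -/
def GczStmt : Prop := ∀ (E : Type) [Field E] [CharZero E], CharZero (KS E)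

/-- ROW GES.  `BG` is a polynomial ring over the field of germs.

PROOF (from ESS, GGR, GDE, GCZ, GDM).  10 lines. -/
def GesStmt : Prop := ∀ (E : Type) [Field E] [CharZero E],
  ∃ Y : Type, Nonempty (MvPolynomial Y (KS E) ≃ₐ[KS E] BG E)

/-- ROW GDM.  `AS E` and `BG E` are domains; the germs of sequences of fractions are a field into which
they embed.

PROOF.  If `gm F gm G = 0` then `F n G n = 0` for almost all `n`, so for almost all `n` one of the
factors is `0`, and one of the two sets is in the ultrafilter (`Ultrafilter.eventually_or`).  Nontrivial: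
`gm 1 ≠ gm 0` (`Filter.Germ` nontriviality).  `BG` is a subring.  30 lines. -/
def GdmStmt : Prop := ∀ (E : Type) [Field E], IsDomain (AS E) ∧ IsDomain (BG E)

/-- ROW GEM.  The embedding of `BG` into the field of germs of fractions.

PROOF.  Compose the inclusion `BG E → AS E` with the germ map of `io E` (`Filter.Germ.map`; prove that
it is a ring homomorphism by induction on germs); injective because `io E` is injective.  40 lines. -/
def GemStmt : Prop := ∀ (E : Type) [Field E], ∃ θ : BG E →+* Filter.Germ (uf : Filter ℕ) (FF E),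
  Function.Injective θ ∧ ∀ (F : ℕ → MvPolynomial ℕ E) (f : BG E), (f : AS E) = gm E F →
    θ f = ((fun n => io E (F n)) : Filter.Germ (uf : Filter ℕ) (FF E))

/-- ROW GMM.  MEMBERSHIP IN `PG`: let `f` be the germ of `F`, and for each `n` let `j n : ℕ → ℕ`.  Then
`f ∈ PG l` (for `J i n = j n i`) if and only if `F n ∈ Pj (j n) l` for almost all `n`.

PROOF.  `f ∈ PG l` iff for all `i < l`, `pderiv (j n i) (F n) = 0` for almost all `n`, iff for almost
all `n` for all `i < l` (finite intersection, `Filter.eventually_all_finset` or induction).  In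
characteristic `0`, `pderiv i g = 0` iff `i ∉ g.vars` (`coeff_pderiv`, `mem_vars`), and `Pj (j n) l` is
`supported` on the complement of `{j n 0, ..., j n (l-1)}` (`mem_supported`).  80 lines.  STRONG. -/
def GmmStmt : Prop := ∀ (E : Type) [Field E] [CharZero E] (j : ℕ → ℕ → ℕ)
  (F : ℕ → MvPolynomial ℕ E) (f : BG E), (f : AS E) = gm E F → ∀ l : ℕ,
    (f ∈ PG E (fun i n => j n i) l ↔ ∀ᶠ n in (uf : Filter ℕ), F n ∈ Pj E (j n) l)

/-- ROW TXC.  COEFFICIENTS of `toX j f`: their total degree is at most that of `f`, they do not involve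
`x_j`, and involve only variables of `f`; the degree in `X` is at most the total degree; it is positive
iff `x_j` occurs in `f`; `toX j f = C f` iff `x_j` does not occur.

PROOF.  For a monomial: `toX j (monomial m a) = monomial (m j) (monomial (m.erase j) a)`
(`Polynomial.monomial` of `MvPolynomial.monomial`); sum over the support of `f`: the coefficient of
`X ^ i` is the sum over the `m ∈ f.support` with `m j = i`, whose monomials `m.erase j` are distinct.
For the positivity: if `x_j` occurs in `f` and `toX j f = C g` then `f = eval (X j) = g`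
(`eval_toX`) is a coefficient, so free of `x_j`.  120 lines.  STRONG. -/
def TxcStmt : Prop := ∀ (E : Type) [Field E] (j : ℕ) (f : MvPolynomial ℕ E),
  (∀ i, ((toX j f).coeff i).totalDegree ≤ f.totalDegree) ∧
  (∀ i, ((toX j f).coeff i).vars ⊆ f.vars.erase j) ∧ (toX j f).natDegree ≤ f.totalDegree ∧
  (0 < (toX j f).natDegree ↔ j ∈ f.vars) ∧ (j ∉ f.vars → toX j f = Polynomial.C f)

/-- ROW GTW.  THE TOWER OF GERMS: with `x_l` = the germ of the variables `x_(j n l)`, if the indices
`j n 0, ..., j n (r-1)` are distinct for almost all `n`, the rings `PG l` form a tower.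

PROOF (from GMM, TXC).  `P_0 = ⊤`.  `P_(l+1) ≤ P_l`: clear.  `x_l ∈ P_l`: the derivative of
`x_(j n l)` with respect to `x_(j n i)`, `i < l`, is `0` for almost all `n`.  Generation: let
`f ∈ P_l` be the germ of `F`, degrees `≤ D`; `F n = ∑ i ≤ D, c_(n,i) x_(j n l) ^ i` with
`c_(n,i) = (toX (j n l) (F n)).coeff i` of degree `≤ D` (TXC, `eval_toX`), free of `x_(j n l)` and of
the variables `x_(j n i)`, `i < l`, for almost all `n` (GMM); so the germs `c_i` are in `P_(l+1)` and
`p = ∑ i ≤ D, c_i X ^ i`.  Uniqueness: if `p(x_l) = 0`, `p ≠ 0` of degree `m`, apply `d = dBG (J l)`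
`m` times: `d` kills the coefficients and `d x_l = 1`, so `m! lc(p) = 0`, `lc(p) = 0`
(characteristic `0`), contradiction.  150 lines.  STRONG. -/
def GtwStmt : Prop := ∀ (E : Type) [Field E] [CharZero E] (j : ℕ → ℕ → ℕ) (x : ℕ → BG E) (r : ℕ),
  (∀ l, (x l : AS E) = gm E (fun n => X (j n l))) →
  (∀ᶠ n in (uf : Filter ℕ), ∀ l < r, ∀ m < l, j n l ≠ j n m) →
    Tower (PG E (fun i n => j n i)) x r ∧
    (∀ l < r, ∀ f ∈ PG E (fun i n => j n i) r, dBG E (fun n => j n l) f = 0) ∧
    ∀ l < r, ∀ m < r, dBG E (fun n => j n l) (x m) = if l = m then 1 else 0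

/-- ROW GCH.  THE CHAIN OF GERMS.  Let for every `n` a chain of length `n` be given, bounded by `Q`.
The germs of its elements form a chain of every length `r`.

PROOF (from GMM, TXC).  `q l : BG E` is the germ of `n ↦ if l < n then q n l else 0` (degree `≤ Q l`),
and in the same way for the others; `lc n l = lcx` has degree `≤ Q l` (TXC).  For `n > l` all the
conditions hold, hence for almost all `n` (`Filter.hyperfilter` contains the cofinite sets:
`Filter.hyperfilter_le_cofinite`, `Nat.hyperfilter_le_atTop`).  For the last condition of `AChain`: the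
polynomial `p = ∑ i ≤ Q l, c_i X ^ i`, `c_i` = germ of `(toX (j n l) (q n l)).coeff i`.  The degree
`natDegree (toX (j n l) (q n l)) ∈ {1, ..., Q l}` is constant `= δ` for almost all `n` (finitely many
values), so `c_i = 0` for `i > δ` and `c_δ` is the germ of `lcx (j n l) (q n l)`, not zero.
200 lines.  STRONG. -/
def GchStmt : Prop := ∀ (E : Type) [Field E] [CharZero E] (Q : ℕ → ℕ) (j : ℕ → ℕ → ℕ)
  (q lc e ρ α β : ℕ → ℕ → MvPolynomial ℕ E),
    (∀ n, FChain Q (j n) n (q n) (lc n) (e n) (ρ n) (α n) (β n)) → ∀ r : ℕ, ∀ x : ℕ → BG E,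
    (∀ l, (x l : AS E) = gm E (fun n => X (j n l))) →
    ∃ q' lc' e' ρ' α' β' : ℕ → BG E,
      (∀ l, (q' l : AS E) = gm E (fun n => if l < n then q n l else 0)) ∧ (∀ l < r, q' l ≠ 0) ∧
      AChain (PG E (fun i n => j n i)) x r q' lc' e' ρ' α' β'

/-- ROW GGD.  GOOD GERMS: if `u` is a good germ (the germ of `F`) at level `l`, then `F n` is good for
almost all `n`.

PROOF (from GMM).  `u ∈ P_l`, `a, b ∈ P_l`, `a q + b u ∈ P_(l+1)`, not zero; choose sequences for `a`
and `b`; all five conditions hold for almost all `n` (GMM; `≠ 0` by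
`Ultrafilter.eventually_not`).  50 lines. -/
def GgdStmt : Prop := ∀ (E : Type) [Field E] [CharZero E] (j : ℕ → ℕ → ℕ) (l : ℕ)
  (F G : ℕ → MvPolynomial ℕ E) (u q : BG E), (u : AS E) = gm E F → (q : AS E) = gm E G →
    Good (PG E (fun i n => j n i) l) (PG E (fun i n => j n i) (l + 1)) q u →
    ∀ᶠ n in (uf : Filter ℕ), Good (Pj E (j n) l) (Pj E (j n) (l + 1)) (G n) (F n)

/-- ROW GIN.  TRANSFER OF MEMBERSHIP: if `a / b ∈ N_r` for germs then `a_n / b_n ∈ N_r` for almost all
`n`.

PROOF (from GGD, GEM).  Write `a / b = ∑ l < r, a_l / ((q_0 ... q_(l-1)) ^ (s_l) u_l)` in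
`FractionRing (BG E)`.  The embedding `θ` of GEM extends to `FractionRing (BG E)` (`IsFractionRing.lift`,
a map of fields), so the identity holds for the germs of sequences of fractions, where the germ of
`io (F n) / io (G n)` is the quotient of the germs.  So for almost all `n` it holds in `FF E`, and
`u_l` is good for almost all `n` (GGD; finitely many `l`).  For such `n`: `InN` (the sequences for
`l ≥ r` do not matter, `s` is the same).  100 lines.  STRONG. -/
def GinStmt : Prop := ∀ (E : Type) [Field E] [CharZero E] [IsDomain (BG E)] (j : ℕ → ℕ → ℕ) (r : ℕ)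
  (G : ℕ → ℕ → MvPolynomial ℕ E) (q : ℕ → BG E) (Fa Fb : ℕ → MvPolynomial ℕ E) (a b : BG E),
    (∀ l, (q l : AS E) = gm E (fun n => G n l)) → (a : AS E) = gm E Fa → (b : AS E) = gm E Fb →
    InN (K := FractionRing (BG E)) (PG E (fun i n => j n i)) q r
      (algebraMap (BG E) (FractionRing (BG E)) a / algebraMap (BG E) (FractionRing (BG E)) b) →
    ∀ᶠ n in (uf : Filter ℕ), InN (K := FF E) (Pj E (j n)) (G n) r (io E (Fa n) / io E (Fb n))

/-- ROW ISO.  The abstract theorem in an isomorphic ring.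

PROOF (from ABS).  Transport everything along `φ : k[Y] ≃ B`: `P' l = (P l).comap φ`, `x' = φ⁻¹ x`, ...,
`D' l = φ⁻¹ ∘ D l ∘ φ` (a derivation: `Derivation.mk'`), `s` = the variables of `φ⁻¹ b0`.  `InN` over
`k[Y]` implies `InN` over `B` (apply the isomorphism of the fields of fractions,
`IsFractionRing.ringEquivOfRingEquiv` or `IsFractionRing.lift`; images of good elements are good).
120 lines.  STRONG. -/
def IsoStmt : Prop := ∀ (k Y B : Type) [Field k] [CharZero k] [CommRing B] [IsDomain B] [Algebra k B],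
  Nonempty (MvPolynomial Y k ≃ₐ[k] B) → ∀ b0 : B, b0 ≠ 0 → ∃ m : ℕ,
    ∀ (r : ℕ) (D : ℕ → Derivation k B B) (P : ℕ → Subring B) (x q lc e ρ α β : ℕ → B) (a0 : B),
      Tower P x r → AChain P x r q lc e ρ α β → (∀ l < r, q l ≠ 0) →
      (∀ l < r, ∀ f ∈ P r, D l f = 0) →
      (∀ l < r, ∀ n < r, D l (x n) = if l = n then 1 else 0) →
      ¬ InN (K := FractionRing B) P q r
        (algebraMap B (FractionRing B) a0 / algebraMap B (FractionRing B) b0) → r ≤ m

/-- ROW INC.  `N_r` in the ring of polynomials increases with `r`, and depends only on the first `r`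
elements of `q`.

PROOF.  New terms `a = 0`, `u = 1`.  20 lines. -/
def IncStmt : Prop := ∀ (E : Type) [Field E] (j : ℕ → ℕ) (q q' : ℕ → MvPolynomial ℕ E) (r r' : ℕ)
  (w : FF E), r ≤ r' → (∀ l < r, q l = q' l) → InN (Pj E j) q r w → InN (Pj E j) q' r' w

/-- ROW TER.  TERMINATION: for all `D` and `Q` there is `r` such that for all chains of length `r`
bounded by `Q` and all `a`, `b` of degree `≤ D`, `b ≠ 0`, the fraction `a / b` is in `N_r`.

PROOF (from GES, GCZ, GDM, GTW, GCH, GIN, ISO, INC).  Suppose not: for every `n` there are a chain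
`(j n, q n, ...)` of length `n` and `a n`, `b n` with `a n / b n ∉ N_n`.  Let `a0`, `b0 ∈ BG` be the
germs (`b0 ≠ 0`).  ISO for `BG` (GES) gives `m = m(b0)`; put `r = m + 1`.  GTW (the indices are distinct
for `n ≥ r`), GCH give a tower and a chain of germs.  If `a0 / b0` were in `N_r`, then by GIN (with
`G n l = if l < n then q n l else 0`) for almost all `n` we would have `a n / b n ∈ N_r` for the
sequences; for `n ≥ r` this contradicts `a n / b n ∉ N_n` (INC).  So `a0 / b0 ∉ N_r` and ISO gives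
`m + 1 ≤ m`.  100 lines.  STRONG. -/
def TerStmt : Prop := ∀ (E : Type) [Field E] [CharZero E] (D : ℕ) (Q : ℕ → ℕ), ∃ r : ℕ,
  ∀ (j : ℕ → ℕ) (q lc e ρ α β : ℕ → MvPolynomial ℕ E), FChain Q j r q lc e ρ α β →
    ∀ a b : MvPolynomial ℕ E, a.totalDegree ≤ D → b.totalDegree ≤ D → b ≠ 0 →
      InN (K := FF E) (Pj E j) q r (io E a / io E b)

end Pool.Agent.RS
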